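import Pool.Agent.K3h28.NR.Stm

/-!
# Limits in the compactness argument (helper28)
-/

set_option autoImplicit false

open Matrix
open scoped ComplexOrder

namespace Pool.Agent.K3h28.NR

theorem gram_entry {m : ℕ} (B : Matrix (Fin m) (Fin m) ℂ) (i j : Fin m) :
    (Bᴴ * B) i j = ∑ q, starRingEnd ℂ (B q i) * B q j := by
  rw [Matrix.mul_apply]
  rfl

theorem gram_form {m : ℕ} (B : Matrix (Fin m) (Fin m) ℂ) (w : Fin m → ℝ) :
    (∑ i, ∑ j, ((w i * w j : ℝ) : ℂ) * (Bᴴ * B) i j)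
      = ((∑ q, ‖∑ j, (w j : ℂ) * B q j‖ ^ 2 : ℝ) : ℂ) := by
  simp only [gram_entry]
  push_cast
  have h : ∀ q, ((‖∑ j, (w j : ℂ) * B q j‖ : ℂ)) ^ 2
      = ∑ i, ∑ j, ((w i : ℂ) * w j) * (starRingEnd ℂ (B q i) * B q j) := by
    intro q
    rw [← Complex.conj_mul' (∑ j, (w j : ℂ) * B q j), map_sum, Finset.sum_mul_sum]
    apply Finset.sum_congr rfl
    intro i _
    apply Finset.sum_congr rfl
    intro j _
    rw [map_mul, Complex.conj_ofReal]
    ring
  simp only [h]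
  rw [Finset.sum_comm]
  simp only [Finset.mul_sum]
  rw [Finset.sum_comm]
  conv_rhs => rw [Finset.sum_comm]
  apply Finset.sum_congr rfl
  intro i _
  rw [Finset.sum_comm]

theorem gram_diag {m : ℕ} (B : Matrix (Fin m) (Fin m) ℂ) (i : Fin m) :
    (Bᴴ * B) i i = ((∑ q, ‖B q i‖ ^ 2 : ℝ) : ℂ) := by
  rw [gram_entry]
  push_cast
  apply Finset.sum_congr rfl
  intro q _
  rw [Complex.conj_mul']

/-- the limit matrix is `ẑ ẑᵀ` -/
theorem limit_form {m : ℕ} (B : Matrix (Fin m) (Fin m) ℂ) (zh : Fin m → ℝ)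
    (hz2 : ∑ i, zh i ^ 2 = 1)
    (h1 : (∑ i, ∑ j, (Bᴴ * B) i j).re ≤ 0)
    (h2 : (∑ i, ∑ j, ((((if i = j then 1 else 0) - zh i * zh j - (1 - zh i ^ 2) / 2
      - (1 - zh j ^ 2) / 2 : ℝ)) : ℂ) * (Bᴴ * B) i j).re ≤ 0)
    (h3 : ∑ i, ((Bᴴ * B) i i).re = 1) (i j : Fin m) :
    (Bᴴ * B) i j = ((zh i * zh j : ℝ) : ℂ) := by
  -- rows of `B` have sum zero
  have hB0 : ∀ q, ∑ j, B q j = 0 := by
    have h := gram_form B (fun _ => 1)
    simp only [mul_one, Complex.ofReal_one, one_mul] at h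
    rw [h, Complex.ofReal_re] at h1
    have h' : ∑ q, ‖∑ j, B q j‖ ^ 2 = 0 :=
      le_antisymm h1 (Finset.sum_nonneg fun q _ => by positivity)
    rw [Finset.sum_eq_zero_iff_of_nonneg (fun q _ => by positivity)] at h'
    intro q
    have := h' q (Finset.mem_univ q)
    exact norm_eq_zero.mp (pow_eq_zero_iff (two_ne_zero) |>.mp this)
  have hrow : ∀ i, ∑ j, (Bᴴ * B) i j = 0 := by
    intro i
    simp only [gram_entry]
    rw [Finset.sum_comm]
    apply Finset.sum_eq_zero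
    intro q _
    rw [← Finset.mul_sum, hB0 q, mul_zero]
  have hcol : ∀ j, ∑ i, (Bᴴ * B) i j = 0 := by
    intro j
    simp only [gram_entry]
    rw [Finset.sum_comm]
    apply Finset.sum_eq_zero
    intro q _
    rw [← Finset.sum_mul, ← map_sum, hB0 q, map_zero, zero_mul]
  -- the value
  have hval : (∑ i, ∑ j, ((((if i = j then 1 else 0) - zh i * zh j - (1 - zh i ^ 2) / 2
      - (1 - zh j ^ 2) / 2 : ℝ)) : ℂ) * (Bᴴ * B) i j)
      = ∑ i, (Bᴴ * B) i i - ∑ i, ∑ j, ((zh i * zh j : ℝ) : ℂ) * (Bᴴ * B) i j := by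
    have e1 : ∀ i j, ((((if i = j then 1 else 0) - zh i * zh j - (1 - zh i ^ 2) / 2
      - (1 - zh j ^ 2) / 2 : ℝ)) : ℂ) * (Bᴴ * B) i j
      = (if i = j then (Bᴴ * B) i j else 0) - ((zh i * zh j : ℝ) : ℂ) * (Bᴴ * B) i j
        - (((1 - zh i ^ 2) / 2 : ℝ) : ℂ) * (Bᴴ * B) i j
        - (((1 - zh j ^ 2) / 2 : ℝ) : ℂ) * (Bᴴ * B) i j := by
      intro i j
      split_ifs <;> push_cast <;> ring
    simp only [e1, Finset.sum_sub_distrib]
    have e2 : ∑ i, ∑ j, (((1 - zh i ^ 2) / 2 : ℝ) : ℂ) * (Bᴴ * B) i j = 0 := by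
      apply Finset.sum_eq_zero
      intro i _
      rw [← Finset.mul_sum, hrow i, mul_zero]
    have e3 : ∑ i, ∑ j, (((1 - zh j ^ 2) / 2 : ℝ) : ℂ) * (Bᴴ * B) i j = 0 := by
      rw [Finset.sum_comm]
      apply Finset.sum_eq_zero
      intro j _
      rw [← Finset.mul_sum, hcol j, mul_zero]
    rw [e2, e3, sub_zero, sub_zero]
    congr 1
    apply Finset.sum_congr rfl
    intro i _
    rw [Finset.sum_ite_eq]
    simp
  rw [hval, gram_form B zh, Complex.sub_re, Complex.re_sum, h3, Complex.ofReal_re] at h2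
  -- the distance
  have hdist : ∀ q, ∑ i, ‖B q i - (∑ j, (zh j : ℂ) * B q j) * zh i‖ ^ 2
      = ∑ i, ‖B q i‖ ^ 2 - ‖∑ j, (zh j : ℂ) * B q j‖ ^ 2 := by
    intro q
    set c := ∑ j, (zh j : ℂ) * B q j with hc
    have e : ∀ i, ((‖B q i - c * zh i‖ ^ 2 : ℝ) : ℂ) = ((‖B q i‖ ^ 2 : ℝ) : ℂ)
        - starRingEnd ℂ c * ((zh i : ℂ) * B q i) - c * starRingEnd ℂ ((zh i : ℂ) * B q i)
        + ((‖c‖ ^ 2 * zh i ^ 2 : ℝ) : ℂ) := by
      intro i
      push_cast
      rw [← Complex.conj_mul', ← Complex.conj_mul', ← Complex.conj_mul', map_sub, map_mul,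
        map_mul, Complex.conj_ofReal]
      ring
    apply Complex.ofReal_injective
    push_cast
    have e' : ∀ i, ((‖B q i - c * zh i‖ : ℂ)) ^ 2 = ((‖B q i‖ : ℂ)) ^ 2
        - starRingEnd ℂ c * ((zh i : ℂ) * B q i) - c * starRingEnd ℂ ((zh i : ℂ) * B q i)
        + (‖c‖ : ℂ) ^ 2 * (zh i : ℂ) ^ 2 := by
      intro i
      have := e i
      push_cast at this
      exact this
    simp only [e', Finset.sum_add_distrib, Finset.sum_sub_distrib, ← Finset.mul_sum, ← map_sum]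
    rw [← hc]
    have hz2' : ∑ i, (zh i : ℂ) ^ 2 = 1 := by
      exact_mod_cast hz2
    rw [hz2', Complex.conj_mul', Complex.mul_conj']
    ring
  have htr : ∑ q, ∑ i, ‖B q i‖ ^ 2 = 1 := by
    rw [Finset.sum_comm, ← h3]
    apply Finset.sum_congr rfl
    intro i _
    rw [gram_diag, Complex.ofReal_re]
  have hzero : ∀ q i, B q i = (∑ j, (zh j : ℂ) * B q j) * zh i := by
    have h0 : ∑ q, ∑ i, ‖B q i - (∑ j, (zh j : ℂ) * B q j) * zh i‖ ^ 2 = 0 := by
      apply le_antisymm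
      · simp only [hdist, Finset.sum_sub_distrib]
        rw [htr]
        exact h2
      · exact Finset.sum_nonneg fun q _ => Finset.sum_nonneg fun i _ => by positivity
    rw [Finset.sum_eq_zero_iff_of_nonneg
      (fun q _ => Finset.sum_nonneg fun i _ => by positivity)] at h0
    intro q i
    have h1 := h0 q (Finset.mem_univ q)
    rw [Finset.sum_eq_zero_iff_of_nonneg (fun q _ => by positivity)] at h1
    have h2 := h1 i (Finset.mem_univ i)
    exact sub_eq_zero.mp (norm_eq_zero.mp (pow_eq_zero_iff (two_ne_zero) |>.mp h2))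
  have hc1 : ∑ q, ‖∑ j, (zh j : ℂ) * B q j‖ ^ 2 = 1 := by
    have h0 : ∑ q, ∑ i, ‖B q i - (∑ j, (zh j : ℂ) * B q j) * zh i‖ ^ 2 = 0 := by
      apply Finset.sum_eq_zero
      intro q _
      apply Finset.sum_eq_zero
      intro i _
      rw [← hzero q i, sub_self, norm_zero]
      norm_num
    simp only [hdist, Finset.sum_sub_distrib] at h0
    rw [htr] at h0
    linarith
  rw [gram_entry]
  have e : ∀ q, starRingEnd ℂ (B q i) * B q j
      = ((‖∑ j, (zh j : ℂ) * B q j‖ ^ 2 : ℝ) : ℂ) * ((zh i * zh j : ℝ) : ℂ) := by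
    intro q
    have a1 := hzero q i
    have a2 := hzero q j
    set c := ∑ j, (zh j : ℂ) * B q j with hc
    rw [a1, a2, map_mul, Complex.conj_ofReal]
    push_cast
    rw [← Complex.conj_mul']
    ring
  simp only [e]
  rw [← Finset.sum_mul, ← Complex.ofReal_sum, hc1, Complex.ofReal_one, one_mul]

/-- entries of a positive semidefinite matrix of trace one -/
theorem gram_bound {m : ℕ} (B : Matrix (Fin m) (Fin m) ℂ)
    (h3 : ∑ i, ((Bᴴ * B) i i).re = 1) (i j : Fin m) : ‖(Bᴴ * B) i j‖ ≤ 1 := by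
  have hd : ∀ i, ((Bᴴ * B) i i).re = ∑ q, ‖B q i‖ ^ 2 := by
    intro i
    rw [gram_diag, Complex.ofReal_re]
  have hle : ∀ i, ∑ q, ‖B q i‖ ^ 2 ≤ 1 := by
    intro i
    rw [← h3, ← hd i]
    exact Finset.single_le_sum (f := fun i => ((Bᴴ * B) i i).re)
      (fun i _ => by rw [hd i]; exact Finset.sum_nonneg fun q _ => by positivity)
      (Finset.mem_univ i)
  rw [gram_entry]
  calc ‖∑ q, starRingEnd ℂ (B q i) * B q j‖ ≤ ∑ q, ‖starRingEnd ℂ (B q i) * B q j‖ :=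
        norm_sum_le _ _
    _ ≤ ∑ q, (‖B q i‖ ^ 2 + ‖B q j‖ ^ 2) / 2 := by
        apply Finset.sum_le_sum
        intro q _
        rw [norm_mul, RCLike.norm_conj]
        nlinarith [sq_nonneg (‖B q i‖ - ‖B q j‖)]
    _ = (∑ q, ‖B q i‖ ^ 2 + ∑ q, ‖B q j‖ ^ 2) / 2 := by
        rw [← Finset.sum_div, Finset.sum_add_distrib]
    _ ≤ 1 := by linarith [hle i, hle j]

end Pool.Agent.K3h28.NR
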