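import Pool.Agent.K3h28.NR.CompA

/-!
# The compactness argument (helper28)
-/

set_option autoImplicit false

open Matrix Filter Topology
open scoped ComplexOrder

namespace Pool.Agent.K3h28.NR

open scoped MatrixOrder in
theorem exists_gram {m : ℕ} (Y : Matrix (Fin m) (Fin m) ℂ) (hY : Y.PosSemidef) :
    ∃ B : Matrix (Fin m) (Fin m) ℂ, Y = Bᴴ * B := by
  obtain ⟨B, hB⟩ := CStarAlgebra.nonneg_iff_eq_star_mul_self.mp hY.nonneg
  exact ⟨B, by rw [hB]; rfl⟩

/-- coefficients of the Schur multiplier -/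
noncomputable def Cf {m : ℕ} (zh : Fin m → ℝ) (ε δ : ℝ) (i j : Fin m) : ℝ :=
  1 + ε * ((if i = j then δ else 0) - zh i * zh j - (δ - zh i ^ 2) / 2 - (δ - zh j ^ 2) / 2)

/-- `D* M D` for `D` diagonal -/
noncomputable def Ym {m : ℕ} (M : Matrix (Fin m) (Fin m) ℂ) (x : Fin m → ℂ) :
    Matrix (Fin m) (Fin m) ℂ :=
  Matrix.of fun i j => starRingEnd ℂ (x i) * x j * M i j

theorem Ym_apply {m : ℕ} (M : Matrix (Fin m) (Fin m) ℂ) (x : Fin m → ℂ) (i j : Fin m) :
    Ym M x i j = starRingEnd ℂ (x i) * x j * M i j := rfl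

theorem Ym_posSemidef {m : ℕ} {M : Matrix (Fin m) (Fin m) ℂ} (hM : M.PosSemidef)
    (x : Fin m → ℂ) : (Ym M x).PosSemidef := by
  have e : Ym M x = (Matrix.diagonal x)ᴴ * M * Matrix.diagonal x := by
    ext i j
    rw [Ym_apply, Matrix.mul_diagonal, Matrix.diagonal_conjTranspose, Matrix.diagonal_mul]
    simp only [Pi.star_apply, RCLike.star_def]
    ring
  rw [e]
  exact hM.conjTranspose_mul_mul_same _

theorem psd_limit {m : ℕ} (F : ℕ → Matrix (Fin m) (Fin m) ℂ) (L : Matrix (Fin m) (Fin m) ℂ)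
    (hF : ∀ k, (F k).PosSemidef) (hlim : ∀ i j, Tendsto (fun k => F k i j) atTop (𝓝 (L i j))) :
    L.PosSemidef := by
  apply Matrix.PosSemidef.of_dotProduct_mulVec_nonneg
  · ext i j
    rw [Matrix.conjTranspose_apply]
    have h1 : Tendsto (fun k => star (F k j i)) atTop (𝓝 (star (L j i))) :=
      (hlim j i).star
    have h2 : (fun k => star (F k j i)) = fun k => F k i j := by
      funext k
      have := congrFun (congrFun (hF k).1 i) j
      rwa [Matrix.conjTranspose_apply] at this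
    rw [h2] at h1
    exact tendsto_nhds_unique h1 (hlim i j)
  · intro x
    have h1 : Tendsto (fun k => star x ⬝ᵥ (F k *ᵥ x)) atTop (𝓝 (star x ⬝ᵥ (L *ᵥ x))) := by
      simp only [dotProduct, Matrix.mulVec]
      apply tendsto_finsetSum
      intro i _
      apply Tendsto.mul tendsto_const_nhds
      apply tendsto_finsetSum
      intro j _
      exact (hlim i j).mul tendsto_const_nhds
    exact ge_of_tendsto' h1 fun k => (hF k).dotProduct_mulVec_nonneg x

theorem Cf_split {m : ℕ} (zh : Fin m → ℝ) (ε δ : ℝ) (Y : Matrix (Fin m) (Fin m) ℂ) :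
    (∑ i, ∑ j, (Cf zh ε δ i j : ℂ) * Y i j).re = (∑ i, ∑ j, Y i j).re
      + ε * (∑ i, ∑ j, ((((if i = j then δ else 0) - zh i * zh j - (δ - zh i ^ 2) / 2
      - (δ - zh j ^ 2) / 2 : ℝ)) : ℂ) * Y i j).re := by
  rw [← Complex.re_ofReal_mul, ← Complex.add_re, Finset.mul_sum, ← Finset.sum_add_distrib]
  congr 1
  apply Finset.sum_congr rfl
  intro i _
  rw [Finset.mul_sum, ← Finset.sum_add_distrib]
  apply Finset.sum_congr rfl
  intro j _
  unfold Cf
  push_cast
  ring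

theorem core {m : ℕ} (M : ℝ × ℂ → Matrix (Fin m) (Fin m) ℂ)
    (hc : ∀ i j, Continuous fun p => M p i j) (zh : Fin m → ℝ)
    (hz2 : ∑ i, zh i ^ 2 = 1) (hz3 : ∀ i, zh i ≠ 0)
    (hno : ∀ p, ‖p‖ = 1 → (M p).PosSemidef →
      ∃ i j l q, M p i j * M p l q - M p i q * M p l j ≠ 0)
    (hseq : ∀ k : ℕ, ∃ (p : ℝ × ℂ) (x : Fin m → ℂ), ‖p‖ = 1 ∧ (M p).PosSemidef ∧
      ∑ i, (Ym (M p) x i i).re = 1 ∧
      (∑ i, ∑ j, (Cf zh (1 / ((k : ℝ) + 1)) (1 - 1 / ((k : ℝ) + 1)) i j : ℂ)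
        * Ym (M p) x i j).re ≤ 0) : False := by
  choose p x hp hM htr hval using hseq
  have hYpsd : ∀ k, (Ym (M (p k)) (x k)).PosSemidef := fun k => Ym_posSemidef (hM k) _
  have hbd : ∀ k i j, ‖Ym (M (p k)) (x k) i j‖ ≤ 1 := by
    intro k i j
    obtain ⟨B, hB⟩ := exists_gram _ (hYpsd k)
    have h3 := htr k
    rw [hB] at h3 ⊢
    exact gram_bound B h3 i j
  have hSnn : ∀ k, 0 ≤ (∑ i, ∑ j, Ym (M (p k)) (x k) i j).re := by
    intro k
    obtain ⟨B, hB⟩ := exists_gram _ (hYpsd k)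
    rw [hB]
    have h := gram_form B (fun _ => 1)
    simp only [mul_one, Complex.ofReal_one, one_mul] at h
    rw [h, Complex.ofReal_re]
    exact Finset.sum_nonneg fun q _ => by positivity
  -- compactness
  let u : ℕ → (ℝ × ℂ) × (Fin m → Fin m → ℂ) := fun k => (p k, fun i j => Ym (M (p k)) (x k) i j)
  have hK : IsCompact ((Metric.sphere (0 : ℝ × ℂ) 1) ×ˢ
      (Metric.closedBall (0 : Fin m → Fin m → ℂ) 1)) :=
    (isCompact_sphere _ _).prod (isCompact_closedBall _ _)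
  have hu : ∀ k, u k ∈ ((Metric.sphere (0 : ℝ × ℂ) 1) ×ˢ
      (Metric.closedBall (0 : Fin m → Fin m → ℂ) 1)) := by
    intro k
    refine ⟨by simpa [u] using hp k, ?_⟩
    rw [mem_closedBall_zero_iff, pi_norm_le_iff_of_nonneg zero_le_one]
    intro i
    rw [pi_norm_le_iff_of_nonneg zero_le_one]
    intro j
    exact hbd k i j
  obtain ⟨⟨p0, Y0⟩, hmem, φ, hφ, hlim⟩ := hK.tendsto_subseq hu
  have hp0 : ‖p0‖ = 1 := by simpa using hmem.1
  have hlimp : Tendsto (fun k => p (φ k)) atTop (𝓝 p0) := by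
    have := (continuous_fst.tendsto (p0, Y0)).comp hlim
    exact this
  have hlimY : ∀ i j, Tendsto (fun k => Ym (M (p (φ k))) (x (φ k)) i j) atTop (𝓝 (Y0 i j)) := by
    intro i j
    have h1 := (continuous_snd.tendsto (p0, Y0)).comp hlim
    have h2 := ((continuous_apply j).comp (continuous_apply (A := fun _ : Fin m => Fin m → ℂ) i)).tendsto Y0
    exact h2.comp h1
  have hlimM : ∀ i j, Tendsto (fun k => M (p (φ k)) i j) atTop (𝓝 (M p0 i j)) := by
    intro i j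
    exact ((hc i j).tendsto p0).comp hlimp
  have hM0 : (M p0).PosSemidef := psd_limit (fun k => M (p (φ k))) _ (fun k => hM _) hlimM
  have hY0 : (Matrix.of Y0).PosSemidef :=
    psd_limit (fun k => Ym (M (p (φ k))) (x (φ k))) _ (fun k => hYpsd _) hlimY
  obtain ⟨B0, hB0⟩ := exists_gram _ hY0
  have hB0' : ∀ i j, (B0ᴴ * B0) i j = Y0 i j := by
    intro i j
    rw [← hB0]
    rfl
  -- the three limits
  have hε : Tendsto (fun k : ℕ => (1 / ((φ k : ℝ) + 1))) atTop (𝓝 0) :=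
    (tendsto_one_div_add_atTop_nhds_zero_nat (𝕜 := ℝ)).comp hφ.tendsto_atTop
  have hδ : Tendsto (fun k : ℕ => (1 - 1 / ((φ k : ℝ) + 1))) atTop (𝓝 1) := by
    have := (tendsto_const_nhds (x := (1 : ℝ))).sub hε
    rwa [sub_zero] at this
  have l3 : ∑ i, ((B0ᴴ * B0) i i).re = 1 := by
    simp only [hB0']
    have h1 : Tendsto (fun k => ∑ i, (Ym (M (p (φ k))) (x (φ k)) i i).re) atTop
        (𝓝 (∑ i, (Y0 i i).re)) :=
      tendsto_finsetSum _ fun i _ => (Complex.continuous_re.tendsto _).comp (hlimY i i)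
    simp only [htr] at h1
    exact tendsto_nhds_unique h1 tendsto_const_nhds |>.symm ▸ rfl
  have l1 : (∑ i, ∑ j, (B0ᴴ * B0) i j).re ≤ 0 := by
    simp only [hB0']
    have h1 : Tendsto (fun k => (∑ i, ∑ j, (Cf zh (1 / ((φ k : ℝ) + 1))
        (1 - 1 / ((φ k : ℝ) + 1)) i j : ℂ) * Ym (M (p (φ k))) (x (φ k)) i j).re) atTop
        (𝓝 (∑ i, ∑ j, (Cf zh 0 1 i j : ℂ) * Y0 i j).re) := by
      apply (Complex.continuous_re.tendsto _).comp
      apply tendsto_finsetSum
      intro i _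
      apply tendsto_finsetSum
      intro j _
      apply Tendsto.mul _ (hlimY i j)
      apply (Complex.continuous_ofReal.tendsto _).comp
      unfold Cf
      apply Tendsto.add tendsto_const_nhds
      apply Tendsto.mul hε
      apply Tendsto.sub
      · apply Tendsto.sub
        · apply Tendsto.sub _ tendsto_const_nhds
          split_ifs
          · exact hδ
          · exact tendsto_const_nhds
        · exact (hδ.sub tendsto_const_nhds).div_const 2
      · exact (hδ.sub tendsto_const_nhds).div_const 2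
    have h2 := le_of_tendsto' h1 fun k => hval (φ k)
    have h3 : ∀ i j, Cf zh 0 1 i j = 1 := by
      intro i j
      unfold Cf
      rw [zero_mul, add_zero]
    simpa only [h3, Complex.ofReal_one, one_mul] using h2
  have l2 : (∑ i, ∑ j, ((((if i = j then 1 else 0) - zh i * zh j - (1 - zh i ^ 2) / 2
      - (1 - zh j ^ 2) / 2 : ℝ)) : ℂ) * (B0ᴴ * B0) i j).re ≤ 0 := by
    simp only [hB0']
    have h1 : Tendsto (fun k => (∑ i, ∑ j, ((((if i = j then (1 - 1 / ((φ k : ℝ) + 1)) else 0)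
        - zh i * zh j - ((1 - 1 / ((φ k : ℝ) + 1)) - zh i ^ 2) / 2
        - ((1 - 1 / ((φ k : ℝ) + 1)) - zh j ^ 2) / 2 : ℝ)) : ℂ)
          * Ym (M (p (φ k))) (x (φ k)) i j).re) atTop
        (𝓝 (∑ i, ∑ j, ((((if i = j then 1 else 0) - zh i * zh j - (1 - zh i ^ 2) / 2
      - (1 - zh j ^ 2) / 2 : ℝ)) : ℂ) * Y0 i j).re) := by
      apply (Complex.continuous_re.tendsto _).comp
      apply tendsto_finsetSum
      intro i _
      apply tendsto_finsetSum
      intro j _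
      apply Tendsto.mul _ (hlimY i j)
      apply (Complex.continuous_ofReal.tendsto _).comp
      apply Tendsto.sub
      · apply Tendsto.sub
        · apply Tendsto.sub _ tendsto_const_nhds
          split_ifs
          · exact hδ
          · exact tendsto_const_nhds
        · exact (hδ.sub tendsto_const_nhds).div_const 2
      · exact (hδ.sub tendsto_const_nhds).div_const 2
    apply le_of_tendsto' h1
    intro k
    have h2 := hval (φ k)
    rw [Cf_split] at h2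
    have h3 := hSnn (φ k)
    have h4 : 0 < (1 / ((φ k : ℝ) + 1)) := by positivity
    by_contra hcon
    push Not at hcon
    have := mul_pos h4 hcon
    linarith
  have hform := limit_form B0 zh hz2 l1 l2 l3
  simp only [hB0'] at hform
  -- the minors
  obtain ⟨i, j, l, q, hne⟩ := hno p0 hp0 hM0
  apply hne
  have hkey : ∀ k, ‖Ym (M (p (φ k))) (x (φ k)) i j * Ym (M (p (φ k))) (x (φ k)) l q
      - Ym (M (p (φ k))) (x (φ k)) i q * Ym (M (p (φ k))) (x (φ k)) l j‖ ^ 2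
      * (‖M (p (φ k)) i i‖ * ‖M (p (φ k)) j j‖ * ‖M (p (φ k)) l l‖ * ‖M (p (φ k)) q q‖)
      = ‖Ym (M (p (φ k))) (x (φ k)) i i‖ * ‖Ym (M (p (φ k))) (x (φ k)) j j‖
        * ‖Ym (M (p (φ k))) (x (φ k)) l l‖ * ‖Ym (M (p (φ k))) (x (φ k)) q q‖
        * ‖M (p (φ k)) i j * M (p (φ k)) l q - M (p (φ k)) i q * M (p (φ k)) l j‖ ^ 2 := by
    intro k
    have e1 : Ym (M (p (φ k))) (x (φ k)) i j * Ym (M (p (φ k))) (x (φ k)) l q
      - Ym (M (p (φ k))) (x (φ k)) i q * Ym (M (p (φ k))) (x (φ k)) l j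
      = (starRingEnd ℂ (x (φ k) i) * x (φ k) j * (starRingEnd ℂ (x (φ k) l) * x (φ k) q))
        * (M (p (φ k)) i j * M (p (φ k)) l q - M (p (φ k)) i q * M (p (φ k)) l j) := by
      simp only [Ym_apply]
      ring
    rw [e1]
    simp only [Ym_apply, norm_mul, RCLike.norm_conj]
    ring
  have t1 : Tendsto (fun k => ‖Ym (M (p (φ k))) (x (φ k)) i j * Ym (M (p (φ k))) (x (φ k)) l q
      - Ym (M (p (φ k))) (x (φ k)) i q * Ym (M (p (φ k))) (x (φ k)) l j‖ ^ 2
      * (‖M (p (φ k)) i i‖ * ‖M (p (φ k)) j j‖ * ‖M (p (φ k)) l l‖ * ‖M (p (φ k)) q q‖)) atTop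
      (𝓝 (‖Y0 i j * Y0 l q - Y0 i q * Y0 l j‖ ^ 2
      * (‖M p0 i i‖ * ‖M p0 j j‖ * ‖M p0 l l‖ * ‖M p0 q q‖))) := by
    apply Tendsto.mul
    · apply Tendsto.pow
      apply Tendsto.norm
      exact ((hlimY i j).mul (hlimY l q)).sub ((hlimY i q).mul (hlimY l j))
    · exact (((hlimM i i).norm.mul (hlimM j j).norm).mul (hlimM l l).norm).mul (hlimM q q).norm
  have t2 : Tendsto (fun k => ‖Ym (M (p (φ k))) (x (φ k)) i i‖
        * ‖Ym (M (p (φ k))) (x (φ k)) j j‖
        * ‖Ym (M (p (φ k))) (x (φ k)) l l‖ * ‖Ym (M (p (φ k))) (x (φ k)) q q‖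
        * ‖M (p (φ k)) i j * M (p (φ k)) l q - M (p (φ k)) i q * M (p (φ k)) l j‖ ^ 2) atTop
      (𝓝 (‖Y0 i i‖ * ‖Y0 j j‖ * ‖Y0 l l‖ * ‖Y0 q q‖
        * ‖M p0 i j * M p0 l q - M p0 i q * M p0 l j‖ ^ 2)) := by
    apply Tendsto.mul
    · exact (((hlimY i i).norm.mul (hlimY j j).norm).mul (hlimY l l).norm).mul (hlimY q q).norm
    · apply Tendsto.pow
      apply Tendsto.norm
      exact ((hlimM i j).mul (hlimM l q)).sub ((hlimM i q).mul (hlimM l j))
  simp only [hkey] at t1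
  have heq := tendsto_nhds_unique t1 t2
  have e0 : Y0 i j * Y0 l q - Y0 i q * Y0 l j = 0 := by
    rw [hform, hform, hform, hform]
    push_cast
    ring
  rw [e0, norm_zero] at heq
  have hpos : ∀ a, 0 < ‖Y0 a a‖ := by
    intro a
    rw [hform, norm_pos_iff]
    exact_mod_cast mul_ne_zero (hz3 a) (hz3 a)
  have h5 : ‖M p0 i j * M p0 l q - M p0 i q * M p0 l j‖ ^ 2 = 0 := by
    have h6 : 0 < ‖Y0 i i‖ * ‖Y0 j j‖ * ‖Y0 l l‖ * ‖Y0 q q‖ :=
      mul_pos (mul_pos (mul_pos (hpos i) (hpos j)) (hpos l)) (hpos q)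
    have h7 : ‖Y0 i i‖ * ‖Y0 j j‖ * ‖Y0 l l‖ * ‖Y0 q q‖
        * ‖M p0 i j * M p0 l q - M p0 i q * M p0 l j‖ ^ 2 = 0 := by
      rw [← heq]
      norm_num
    rcases mul_eq_zero.mp h7 with h | h
    · exact absurd h h6.ne'
    · exact h
  exact norm_eq_zero.mp (pow_eq_zero_iff (two_ne_zero) |>.mp h5)

end Pool.Agent.K3h28.NR
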