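import Pool.Agent.K3h28.NR.CompB

/-!
# The Schur multiplier (helper28)
-/

set_option autoImplicit false

open Matrix Filter Topology
open scoped ComplexOrder

namespace Pool.Agent.K3h28.NR

/-- the matrix of the pencil in the basis `η` -/
noncomputable def MM {n : ℕ} (A : Matrix (Fin n) (Fin n) ℂ) (η : Fin n → (Fin n → ℂ))
    (p : ℝ × ℂ) : Matrix (Fin n) (Fin n) ℂ :=
  Matrix.of fun i j => star (η i) ⬝ᵥ (pen A p *ᵥ η j)

theorem MM_apply {n : ℕ} (A : Matrix (Fin n) (Fin n) ℂ) (η : Fin n → (Fin n → ℂ))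
    (p : ℝ × ℂ) (i j : Fin n) : MM A η p i j = star (η i) ⬝ᵥ (pen A p *ᵥ η j) := rfl

theorem pen_form {n : ℕ} (A : Matrix (Fin n) (Fin n) ℂ) (p : ℝ × ℂ) (x y : Fin n → ℂ) :
    star x ⬝ᵥ (pen A p *ᵥ y) = (p.1 : ℂ) * (star x ⬝ᵥ y) + p.2 * (star x ⬝ᵥ (A *ᵥ y))
      + starRingEnd ℂ p.2 * (star x ⬝ᵥ (Aᴴ *ᵥ y)) := by
  unfold pen
  rw [Matrix.conjTranspose_smul, Matrix.add_mulVec, Matrix.add_mulVec, Matrix.smul_mulVec,
    Matrix.smul_mulVec, Matrix.smul_mulVec, Matrix.one_mulVec, dotProduct_add, dotProduct_add,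
    dotProduct_smul, dotProduct_smul, dotProduct_smul]
  rfl

theorem MM_smul {n : ℕ} (A : Matrix (Fin n) (Fin n) ℂ) (η : Fin n → (Fin n → ℂ))
    (t : ℝ) (p : ℝ × ℂ) (i j : Fin n) : MM A η (t • p) i j = (t : ℂ) * MM A η p i j := by
  rw [MM_apply, MM_apply, pen_form, pen_form]
  have e1 : (t • p).1 = t * p.1 := rfl
  have e2 : (t • p).2 = (t : ℂ) * p.2 := by
    show t • p.2 = _
    rw [Complex.real_smul]
  rw [e1, e2, map_mul, Complex.conj_ofReal]
  push_cast
  ring

theorem MM_continuous {n : ℕ} (A : Matrix (Fin n) (Fin n) ℂ) (η : Fin n → (Fin n → ℂ))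
    (i j : Fin n) : Continuous fun p : ℝ × ℂ => MM A η p i j := by
  simp only [MM_apply, pen_form]
  have h1 : Continuous fun p : ℝ × ℂ => (p.1 : ℂ) := Complex.continuous_ofReal.comp continuous_fst
  have h2 : Continuous fun p : ℝ × ℂ => starRingEnd ℂ p.2 :=
    Complex.continuous_conj.comp continuous_snd
  exact ((h1.mul continuous_const).add (continuous_snd.mul continuous_const)).add
    (h2.mul continuous_const)

theorem MM_eq {n : ℕ} (A : Matrix (Fin n) (Fin n) ℂ) (η : Fin n → (Fin n → ℂ))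
    (p : ℝ × ℂ) : MM A η p = (Matrix.of fun a j => η j a)ᴴ * pen A p
      * (Matrix.of fun a j => η j a) := by
  ext i j
  rw [MM_apply, Matrix.mul_assoc, Matrix.mul_apply]
  simp only [dotProduct, Matrix.mulVec, Matrix.mul_apply, Matrix.conjTranspose_apply,
    Matrix.of_apply, Pi.star_apply]

theorem MM_psd {n : ℕ} (A : Matrix (Fin n) (Fin n) ℂ) (η : Fin n → (Fin n → ℂ))
    (p : ℝ × ℂ) (h : (pen A p).PosSemidef) : (MM A η p).PosSemidef := by
  rw [MM_eq]
  exact h.conjTranspose_mul_mul_same _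

theorem rank_one_of_minors {m : ℕ} (Y : Matrix (Fin m) (Fin m) ℂ) (hY : Y.PosSemidef)
    (hm : ∀ i j l q, Y i j * Y l q - Y i q * Y l j = 0) :
    ∃ h : Fin m → ℂ, Y = vecMulVec h (star h) := by
  have hsym : ∀ i j, Y i j = starRingEnd ℂ (Y j i) := by
    intro i j
    have := congrFun (congrFun hY.1 i) j
    rw [Matrix.conjTranspose_apply] at this
    exact this.symm
  by_cases h0 : ∃ a, Y a a ≠ 0
  · obtain ⟨a, ha⟩ := h0
    have hnn : 0 ≤ Y a a := hY.diag_nonneg
    have hre : Y a a = ((Y a a).re : ℂ) := by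
      have := (Complex.le_def.mp hnn).2
      apply Complex.ext
      · simp
      · simpa using this.symm
    have hpos : 0 < (Y a a).re := by
      have h1 := (Complex.le_def.mp hnn).1
      rcases h1.lt_or_eq with h | h
      · simpa using h
      · exfalso
        apply ha
        rw [hre, ← h]
        simp
    refine ⟨fun i => Y i a / (Real.sqrt (Y a a).re : ℂ), ?_⟩
    ext i j
    rw [vecMulVec_apply, Pi.star_apply, RCLike.star_def, map_div₀, Complex.conj_ofReal,
      ← hsym a j]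
    have hs : (Real.sqrt (Y a a).re : ℂ) * (Real.sqrt (Y a a).re : ℂ) = Y a a := by
      rw [← Complex.ofReal_mul, Real.mul_self_sqrt hpos.le, ← hre]
    rw [div_mul_div_comm, hs, eq_div_iff ha]
    have := hm i j a a
    linear_combination this
  · push Not at h0
    refine ⟨0, ?_⟩
    ext i j
    have h1 := hm i i j j
    rw [h0, h0, hsym j i, zero_mul, zero_sub, neg_eq_zero, Complex.mul_conj'] at h1
    have h2 : Y i j = 0 := by
      have h3 : (‖Y i j‖ : ℂ) = 0 := pow_eq_zero_iff (two_ne_zero) |>.mp h1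
      exact norm_eq_zero.mp (by exact_mod_cast h3)
    rw [h2, vecMulVec_apply]
    simp

theorem exists_zh (n : ℕ) : ∃ zh : Fin (n + 2) → ℝ, ∑ i, zh i = 0 ∧ ∑ i, zh i ^ 2 = 1 ∧
    ∀ i, zh i ≠ 0 := by
  let z : Fin (n + 2) → ℝ := fun i => if i = Fin.last (n + 1) then -((n : ℝ) + 1) else 1
  have hz : ∀ i : Fin (n + 1), z i.castSucc = 1 := by
    intro i
    show (if i.castSucc = Fin.last (n + 1) then -((n : ℝ) + 1) else 1) = 1
    rw [if_neg (Fin.castSucc_lt_last i).ne]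
  have hzl : z (Fin.last (n + 1)) = -((n : ℝ) + 1) := by
    show (if Fin.last (n + 1) = Fin.last (n + 1) then -((n : ℝ) + 1) else 1) = _
    rw [if_pos rfl]
  have hne : ∀ i, z i ≠ 0 := by
    intro i
    show (if i = Fin.last (n + 1) then -((n : ℝ) + 1) else 1) ≠ 0
    have h1 : (0 : ℝ) < (n : ℝ) + 1 := by positivity
    split_ifs
    · exact neg_ne_zero.mpr h1.ne'
    · exact one_ne_zero
  have hs : ∑ i, z i = 0 := by
    rw [Fin.sum_univ_castSucc, hzl]
    simp only [hz]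
    simp
  have hpos : 0 < ∑ i, z i ^ 2 := by
    apply Finset.sum_pos
    · intro i _
      have := hne i
      positivity
    · exact Finset.univ_nonempty
  refine ⟨fun i => z i / Real.sqrt (∑ i, z i ^ 2), ?_, ?_, ?_⟩
  · rw [← Finset.sum_div, hs, zero_div]
  · simp only [div_pow]
    rw [← Finset.sum_div, Real.sq_sqrt hpos.le, div_self hpos.ne']
  · intro i
    exact div_ne_zero (hne i) (Real.sqrt_pos.mpr hpos).ne'

theorem Cf_symm {m : ℕ} (zh : Fin m → ℝ) (ε δ : ℝ) (i j : Fin m) :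
    Cf zh ε δ i j = Cf zh ε δ j i := by
  unfold Cf
  by_cases h : i = j
  · rw [h]
  · rw [if_neg h, if_neg (fun h' => h h'.symm)]
    ring

theorem Cf_diag {m : ℕ} (zh : Fin m → ℝ) (ε δ : ℝ) (i : Fin m) : Cf zh ε δ i i = 1 := by
  unfold Cf
  rw [if_pos rfl]
  ring

theorem Cf_neg {m : ℕ} (zh : Fin m → ℝ) (ε δ : ℝ) (hz1 : ∑ i, zh i = 0)
    (hz2 : ∑ i, zh i ^ 2 = 1) (hε : 0 < ε) (hδ : δ < 1) :
    ∑ i, ∑ j, Cf zh ε δ i j * zh i * zh j < 0 := by
  have e1 : ∀ i j, Cf zh ε δ i j * zh i * zh j = zh i * zh j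
      + ε * (if i = j then δ * zh i * zh j else 0) - ε * (zh i ^ 2 * zh j ^ 2)
      - ε * ((δ - zh i ^ 2) / 2 * zh i) * zh j - ε * zh i * ((δ - zh j ^ 2) / 2 * zh j) := by
    intro i j
    unfold Cf
    split_ifs <;> ring
  have e2 : ∑ i, ∑ j, Cf zh ε δ i j * zh i * zh j = ε * (δ - 1) := by
    simp only [e1, Finset.sum_add_distrib, Finset.sum_sub_distrib, ← Finset.mul_sum,
      ← Finset.sum_mul, hz1, hz2]
    simp only [Finset.sum_ite_eq, Finset.mem_univ, if_true]
    have e3 : ∑ i, δ * zh i * zh i = δ := by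
      have : ∀ i, δ * zh i * zh i = δ * zh i ^ 2 := fun i => by ring
      simp only [this]
      rw [← Finset.mul_sum, hz2, mul_one]
    rw [e3]
    ring
  rw [e2]
  exact mul_neg_of_pos_of_neg hε (by linarith)

end Pool.Agent.K3h28.NR
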