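import Pool.Agent.K3h28.NR.CompC

/-!
# Proof of S_COMP (helper28)
-/

set_option autoImplicit false

open Matrix Filter Topology
open scoped ComplexOrder

namespace Pool.Agent.K3h28.NR

/-- an element of rank one from the minors -/
theorem rank_one_pencil {n : ℕ} (A : Matrix (Fin n) (Fin n) ℂ) (η : Fin n → (Fin n → ℂ))
    (hη : LinearIndependent ℂ η) (p : ℝ × ℂ) (hp : pen A p ≠ 0)
    (hpsd : (MM A η p).PosSemidef)
    (hm : ∀ i j l q, MM A η p i j * MM A η p l q - MM A η p i q * MM A η p l j = 0) :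
    ∃ g : Fin n → ℂ, g ≠ 0 ∧ pen A p = vecMulVec g (star g) := by
  obtain ⟨h, hh⟩ := rank_one_of_minors _ hpsd hm
  set E : Matrix (Fin n) (Fin n) ℂ := Matrix.of fun a j => η j a with hE
  have hEu : IsUnit E := by
    rw [← Matrix.linearIndependent_cols_iff_isUnit]
    exact hη
  have hdet : IsUnit E.det := (Matrix.isUnit_iff_isUnit_det E).mp hEu
  have e1 : E * E⁻¹ = 1 := Matrix.mul_nonsing_inv E hdet
  have e2 : (E⁻¹)ᴴ * Eᴴ = 1 := by
    rw [← Matrix.conjTranspose_mul, e1, Matrix.conjTranspose_one]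
  have e3 : pen A p = (E⁻¹)ᴴ * MM A η p * E⁻¹ := by
    rw [MM_eq, ← hE]
    have : (E⁻¹)ᴴ * (Eᴴ * pen A p * E) * E⁻¹ = ((E⁻¹)ᴴ * Eᴴ) * pen A p * (E * E⁻¹) := by
      simp only [Matrix.mul_assoc]
    rw [this, e1, e2, Matrix.one_mul, Matrix.mul_one]
  have e4 : pen A p = vecMulVec ((E⁻¹)ᴴ *ᵥ h) (star ((E⁻¹)ᴴ *ᵥ h)) := by
    rw [e3, hh, Matrix.mul_vecMulVec, Matrix.vecMulVec_mul, Matrix.star_mulVec,
      Matrix.conjTranspose_conjTranspose]
  refine ⟨_, ?_, e4⟩
  intro h0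
  apply hp
  rw [e4, h0]
  ext i j
  simp [vecMulVec_apply]

/-- normalisation -/
theorem normalise {n : ℕ} (A : Matrix (Fin n) (Fin n) ℂ) (η : Fin n → (Fin n → ℂ))
    (C : Fin n → Fin n → ℝ) (p : ℝ × ℂ) (x : Fin n → ℂ) (hp : (pen A p).PosSemidef)
    (htr : 0 < ∑ i, (Ym (MM A η p) x i i).re)
    (hval : (∑ i, ∑ j, (C i j : ℂ) * Ym (MM A η p) x i j).re ≤ 0) :
    ∃ (p' : ℝ × ℂ) (x' : Fin n → ℂ), ‖p'‖ = 1 ∧ (MM A η p').PosSemidef ∧
      ∑ i, (Ym (MM A η p') x' i i).re = 1 ∧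
      (∑ i, ∑ j, (C i j : ℂ) * Ym (MM A η p') x' i j).re ≤ 0 := by
  have hp0 : p ≠ 0 := by
    intro h
    rw [h] at htr
    have : ∀ i j, Ym (MM A η 0) x i j = 0 := by
      intro i j
      have h1 := MM_smul A η 0 0 i j
      rw [zero_smul, Complex.ofReal_zero, zero_mul] at h1
      rw [Ym_apply, h1, mul_zero]
    simp [this] at htr
  have ht : 0 < ‖p‖ := norm_pos_iff.mpr hp0
  set T := ∑ i, (Ym (MM A η p) x i i).re with hT
  have hcpos : 0 ≤ ‖p‖ / T := by positivity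
  have hY : ∀ i j, Ym (MM A η (‖p‖⁻¹ • p)) (fun i => (Real.sqrt (‖p‖ / T) : ℂ) * x i) i j
      = ((T⁻¹ : ℝ) : ℂ) * Ym (MM A η p) x i j := by
    intro i j
    rw [Ym_apply, Ym_apply, MM_smul, map_mul, Complex.conj_ofReal]
    have h1 : (Real.sqrt (‖p‖ / T) : ℂ) * (Real.sqrt (‖p‖ / T) : ℂ) = ((‖p‖ / T : ℝ) : ℂ) := by
      rw [← Complex.ofReal_mul, Real.mul_self_sqrt hcpos]
    have h2 : ((‖p‖ / T : ℝ) : ℂ) * ((‖p‖⁻¹ : ℝ) : ℂ) = ((T⁻¹ : ℝ) : ℂ) := by
      rw [← Complex.ofReal_mul]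
      congr 1
      field_simp
    calc (Real.sqrt (‖p‖ / T) : ℂ) * starRingEnd ℂ (x i) * ((Real.sqrt (‖p‖ / T) : ℂ) * x j)
          * (((‖p‖⁻¹ : ℝ) : ℂ) * MM A η p i j)
        = ((Real.sqrt (‖p‖ / T) : ℂ) * (Real.sqrt (‖p‖ / T) : ℂ)) * ((‖p‖⁻¹ : ℝ) : ℂ)
          * (starRingEnd ℂ (x i) * x j * MM A η p i j) := by ring
      _ = _ := by rw [h1, h2]
  refine ⟨‖p‖⁻¹ • p, fun i => (Real.sqrt (‖p‖ / T) : ℂ) * x i, ?_, ?_, ?_, ?_⟩
  · rw [norm_smul, norm_inv, norm_norm, inv_mul_cancel₀ ht.ne']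
  · have e : MM A η (‖p‖⁻¹ • p) = (‖p‖⁻¹ : ℝ) • MM A η p := by
      ext i j
      rw [MM_smul, Matrix.smul_apply, Complex.real_smul]
    rw [e]
    exact (MM_psd A η p hp).smul (inv_nonneg.mpr ht.le)
  · simp only [hY, Complex.re_ofReal_mul]
    rw [← Finset.mul_sum, ← hT, inv_mul_cancel₀ htr.ne']
  · have e : ∑ i, ∑ j, (C i j : ℂ) * Ym (MM A η (‖p‖⁻¹ • p))
        (fun i => (Real.sqrt (‖p‖ / T) : ℂ) * x i) i j
        = ((T⁻¹ : ℝ) : ℂ) * ∑ i, ∑ j, (C i j : ℂ) * Ym (MM A η p) x i j := by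
      simp only [hY, Finset.mul_sum]
      apply Finset.sum_congr rfl
      intro i _
      apply Finset.sum_congr rfl
      intro j _
      ring
    rw [e, Complex.re_ofReal_mul]
    exact mul_nonpos_of_nonneg_of_nonpos (inv_nonneg.mpr htr.le) hval

theorem pen_one {n : ℕ} (A : Matrix (Fin n) (Fin n) ℂ) : pen A ((1 : ℝ), (0 : ℂ)) = 1 := by
  unfold pen
  simp

theorem t_COMP : S_COMP := by
  intro n A hpen hno η hη
  obtain ⟨zh, hz1, hz2, hz3⟩ := exists_zh n
  by_contra hcon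
  apply core (MM A η) (MM_continuous A η) zh hz2 hz3
  · intro p hp hpsd
    by_contra hm
    push Not at hm
    apply hno
    have hp0 : pen A p ≠ 0 := by
      intro h
      have := hpen p h
      rw [this, norm_zero] at hp
      exact zero_ne_one hp
    obtain ⟨g, hg, hg'⟩ := rank_one_pencil A η hη p hp0 hpsd hm
    exact ⟨p, g, hg, hg'⟩
  · intro k
    have hε : 0 < (1 / ((k : ℝ) + 1)) := by positivity
    have hδ : (1 - 1 / ((k : ℝ) + 1)) < 1 := by linarith
    set C := Cf zh (1 / ((k : ℝ) + 1)) (1 - 1 / ((k : ℝ) + 1)) with hC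
    -- it is enough to find a bad pair
    suffices hbad : ∃ (p : ℝ × ℂ) (x : Fin (n + 2) → ℂ), (pen A p).PosSemidef ∧
        0 < ∑ i, (Ym (MM A η p) x i i).re ∧
        (∑ i, ∑ j, (C i j : ℂ) * Ym (MM A η p) x i j).re ≤ 0 by
      obtain ⟨p, x, h1, h2, h3⟩ := hbad
      exact normalise A η C p x h1 h2 h3
    by_contra hnb
    push Not at hnb
    apply hcon
    refine ⟨C, zh, Cf_symm zh _ _, Cf_diag zh _ _, Cf_neg zh _ _ hz1 hz2 hε hδ, ?_, ?_⟩
    · intro p hp x
      show 0 ≤ (∑ i, ∑ j, (C i j : ℂ) * Ym (MM A η p) x i j).re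
      have hY := Ym_posSemidef (MM_psd A η p hp) x
      obtain ⟨B, hB⟩ := exists_gram _ hY
      have hd : ∀ i, (Ym (MM A η p) x i i).re = ∑ q, ‖B q i‖ ^ 2 := by
        intro i
        rw [hB, gram_diag, Complex.ofReal_re]
      have hnn : 0 ≤ ∑ i, (Ym (MM A η p) x i i).re := by
        apply Finset.sum_nonneg
        intro i _
        rw [hd]
        exact Finset.sum_nonneg fun q _ => by positivity
      rcases hnn.lt_or_eq with h | h
      · exact (hnb p x hp h).le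
      · have hz : ∀ q i, B q i = 0 := by
          have h0 : ∑ i, ∑ q, ‖B q i‖ ^ 2 = 0 := by
            rw [h]
            exact Finset.sum_congr rfl fun i _ => (hd i).symm
          rw [Finset.sum_eq_zero_iff_of_nonneg
            (fun i _ => Finset.sum_nonneg fun q _ => by positivity)] at h0
          intro q i
          have h1 := h0 i (Finset.mem_univ i)
          rw [Finset.sum_eq_zero_iff_of_nonneg (fun q _ => by positivity)] at h1
          exact norm_eq_zero.mp (pow_eq_zero_iff (two_ne_zero) |>.mp (h1 q (Finset.mem_univ q)))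
        rw [hB]
        simp only [gram_entry, hz]
        simp
    · intro x hx
      have h1 : (pen A ((1 : ℝ), (0 : ℂ))).PosSemidef := by
        rw [pen_one]
        exact Matrix.PosSemidef.one
      have hM : ∀ i j, MM A η ((1 : ℝ), (0 : ℂ)) i j = star (η i) ⬝ᵥ η j := by
        intro i j
        rw [MM_apply, pen_one, Matrix.one_mulVec]
      have h2 : 0 < (∑ i, ∑ j, (C i j : ℂ) * Ym (MM A η ((1 : ℝ), (0 : ℂ))) x i j).re := by
        apply hnb _ x h1
        have hd : ∀ i, (Ym (MM A η ((1 : ℝ), (0 : ℂ))) x i i).re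
            = ‖x i‖ ^ 2 * (star (η i) ⬝ᵥ η i).re := by
          intro i
          rw [Ym_apply, hM, Complex.conj_mul', ← Complex.ofReal_pow, Complex.re_ofReal_mul]
        simp only [hd]
        have hnn : ∀ i, 0 ≤ (star (η i) ⬝ᵥ η i).re := fun i =>
          Pool.Agent.Helper774.dot_self_re_nonneg _
        obtain ⟨a, ha⟩ : ∃ a, x a ≠ 0 := by
          by_contra hall
          push Not at hall
          exact hx (funext hall)
        have hpos : 0 < (star (η a) ⬝ᵥ η a).re := by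
          rcases (hnn a).lt_or_eq with h | h
          · exact h
          · exact absurd (Pool.Agent.Helper774.dot_self_re_eq_zero h.symm) (hη.ne_zero a)
        apply Finset.sum_pos'
        · intro i _
          have := hnn i
          positivity
        · refine ⟨a, Finset.mem_univ a, ?_⟩
          have : 0 < ‖x a‖ := norm_pos_iff.mpr ha
          positivity
      simp only [Ym_apply, hM] at h2
      exact h2

end Pool.Agent.K3h28.NR
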