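import Pool.Agent.K3h28.NR.Stm
import Pool.Agent.K3h23.NR.Link

/-!
# Linked simple vectors, with the hypothesis on the common eigenvectors only at the two vectors
(adapted from the brick LINK of helper23)
-/

set_option autoImplicit false

open Matrix
open scoped ComplexOrder

namespace Pool.Agent.K3h28.NR

open Pool.Agent.Helper774 Pool.Agent.K3h23.NR

/-- `ξ` is not a common eigenvector of `A` and `Aᴴ` -/
def NCat {n : ℕ} (A : Matrix (Fin n) (Fin n) ℂ) (ξ : Fin n → ℂ) : Prop :=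
  ∀ a b : ℂ, ¬ (A *ᵥ ξ = a • ξ ∧ Aᴴ *ᵥ ξ = b • ξ)

section general

variable {n : ℕ} {A : Matrix (Fin n) (Fin n) ℂ}

theorem ker_phiP {ξ : Fin n → ℂ} (hA : NCat A ξ) (hξ : ξ ≠ 0) {p₁ p : ℝ × ℂ} (hp₁ : p₁ ≠ 0)
    (h1 : pen A p₁ *ᵥ ξ = 0) (h : pen A p *ᵥ ξ = 0) : ∃ t : ℝ, p = t • p₁ := by
  rw [pen_mulVec] at h1 h
  obtain ⟨a, w⟩ := p
  obtain ⟨a₁, w₁⟩ := p₁
  simp only at h1 h
  have e : ∀ i, (a : ℂ) * ξ i + w * (A *ᵥ ξ) i + starRingEnd ℂ w * (Aᴴ *ᵥ ξ) i = 0 := by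
    intro i
    simpa using congrFun h i
  have e₁ : ∀ i, (a₁ : ℂ) * ξ i + w₁ * (A *ᵥ ξ) i + starRingEnd ℂ w₁ * (Aᴴ *ᵥ ξ) i = 0 := by
    intro i
    simpa using congrFun h1 i
  by_cases hD : w * starRingEnd ℂ w₁ - starRingEnd ℂ w * w₁ = 0
  · have hw₁ : w₁ ≠ 0 := by
      rintro rfl
      apply hp₁
      obtain ⟨i, hi⟩ := Function.ne_iff.1 hξ
      have h2 := e₁ i
      rw [zero_mul, map_zero, zero_mul, add_zero, add_zero] at h2
      rcases mul_eq_zero.1 h2 with h3 | h3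
      · rw [Complex.ofReal_eq_zero.1 h3]
        rfl
      · exact absurd h3 hi
    have hcw₁ : starRingEnd ℂ w₁ ≠ 0 := by
      rwa [Ne, map_eq_zero]
    have hreal : starRingEnd ℂ (w / w₁) = w / w₁ := by
      rw [map_div₀, div_eq_div_iff hcw₁ hw₁]
      linear_combination -hD
    obtain ⟨t, ht⟩ := Complex.conj_eq_iff_real.1 hreal
    have hw : w = t * w₁ := by
      rw [← ht, div_mul_cancel₀ _ hw₁]
    have hcw : starRingEnd ℂ w = t * starRingEnd ℂ w₁ := by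
      rw [hw, map_mul, Complex.conj_ofReal]
    refine ⟨t, ?_⟩
    obtain ⟨i, hi⟩ := Function.ne_iff.1 hξ
    have h2 := e i
    have h3 := e₁ i
    rw [hw, map_mul, Complex.conj_ofReal] at h2
    have h4 : ((a : ℂ) - t * a₁) * ξ i = 0 := by
      linear_combination h2 - t * h3
    rcases mul_eq_zero.1 h4 with h5 | h5
    · have h6 : a = t * a₁ := by
        have : ((a - t * a₁ : ℝ) : ℂ) = 0 := by
          push_cast
          exact h5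
        have := Complex.ofReal_eq_zero.1 this
        linarith
      refine Prod.ext h6 ?_
      show w = t • w₁
      rw [Complex.real_smul]
      exact hw
    · exact absurd h5 hi
  · exfalso
    refine hA (-((a : ℂ) * starRingEnd ℂ w₁ - a₁ * starRingEnd ℂ w) /
      (w * starRingEnd ℂ w₁ - starRingEnd ℂ w * w₁)) (((a : ℂ) * w₁ - a₁ * w) /
      (w * starRingEnd ℂ w₁ - starRingEnd ℂ w * w₁)) ⟨?_, ?_⟩
    · funext i
      rw [Pi.smul_apply, smul_eq_mul, div_mul_eq_mul_div, eq_div_iff hD]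
      linear_combination starRingEnd ℂ w₁ * e i - starRingEnd ℂ w * e₁ i
    · funext i
      rw [Pi.smul_apply, smul_eq_mul, div_mul_eq_mul_div, eq_div_iff hD]
      linear_combination -(w₁ * e i) + w * e₁ i

theorem bound_aP {ξ : Fin n → ℂ} (hA : NCat A ξ) (hξ : ξ ≠ 0) {p₁ : ℝ × ℂ} (hp₁ : p₁ ≠ 0)
    (h1 : pen A p₁ *ᵥ ξ = 0) (ω : (ℝ × ℂ) →ₗ[ℝ] ℝ) (hω : ω p₁ = 0) :
    ∃ K : ℝ, 0 ≤ K ∧ ∀ p, (pen A p).PosSemidef → ω p ^ 2 ≤ K * ‖p‖ * ef A ξ p := by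
  obtain ⟨L, hL⟩ := factor (phi A ξ) ω (by
    intro p hp
    obtain ⟨t, rfl⟩ := ker_phiP hA hξ hp₁ h1 (LinearMap.mem_ker.1 hp)
    rw [LinearMap.mem_ker, map_smul, hω, smul_zero])
  obtain ⟨C, hC, hCL⟩ : ∃ C : ℝ, 0 ≤ C ∧ ∀ x, |L x| ≤ C * ‖x‖ := by
    refine ⟨‖LinearMap.toContinuousLinearMap L‖, norm_nonneg _, fun x => ?_⟩
    exact (LinearMap.toContinuousLinearMap L).le_opNorm x
  have hS : (0 : ℝ) ≤ 1 + 2 * ∑ j, ‖A j j‖ := by positivity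
  refine ⟨C ^ 2 * (1 + 2 * ∑ j, ‖A j j‖), by positivity, fun p hp => ?_⟩
  have he := ef_nonneg (ξ := ξ) hp
  have h2 : ‖phi A ξ p‖ ≤ √((1 + 2 * ∑ j, ‖A j j‖) * ‖p‖ * ef A ξ p) := by
    rw [pi_norm_le_iff_of_nonneg (Real.sqrt_nonneg _)]
    intro i
    refine Real.le_sqrt_of_sq_le ?_
    refine (entry_le hp ξ i).trans ?_
    exact mul_le_mul_of_nonneg_right (diag_le p i) he
  have h3 : ‖phi A ξ p‖ ^ 2 ≤ (1 + 2 * ∑ j, ‖A j j‖) * ‖p‖ * ef A ξ p := by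
    have := pow_le_pow_left₀ (norm_nonneg _) h2 2
    rwa [Real.sq_sqrt (by positivity)] at this
  have h4 : ω p ^ 2 ≤ C ^ 2 * ‖phi A ξ p‖ ^ 2 := by
    rw [← hL p, ← mul_pow, ← sq_abs (L (phi A ξ p))]
    exact pow_le_pow_left₀ (abs_nonneg _) (hCL _) 2
  calc ω p ^ 2 ≤ C ^ 2 * ‖phi A ξ p‖ ^ 2 := h4
    _ ≤ C ^ 2 * ((1 + 2 * ∑ j, ‖A j j‖) * ‖p‖ * ef A ξ p) :=
        mul_le_mul_of_nonneg_left h3 (sq_nonneg C)
    _ = _ := by ring

end general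

theorem t_LINKP (hSch : S_SCHUR) (n : ℕ) (A : Matrix (Fin n) (Fin n) ℂ) (hn : 0 < n)
    (hD : FinPropD A) (ξ η : Fin n → ℂ) (hAξ : NCat A ξ) (hAη : NCat A η) (hξ : Simple A ξ)
    (hη : Simple A η) (hind : ¬ ∃ c : ℂ, η = c • ξ) : Linked A ξ η := by
  classical
  by_contra hlink
  unfold Linked at hlink
  push Not at hlink
  obtain ⟨hl1, hl2, hl3⟩ := hlink
  obtain ⟨hξ0, p₁, hp₁, hk₁, hs₁⟩ := hξ
  obtain ⟨hη0, p₂, hp₂, hk₂, hs₂⟩ := hη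
  have hind' : ¬ ∃ c : ℂ, ξ = c • η := by
    rintro ⟨c, hc⟩
    have hc0 : c ≠ 0 := by
      rintro rfl
      exact hξ0 (by rw [hc, zero_smul])
    exact hind ⟨c⁻¹, by rw [hc, smul_smul, inv_mul_cancel₀ hc0, one_smul]⟩
  have hcross : ∀ p, star ξ ⬝ᵥ (pen A p *ᵥ η) = 0 := by
    intro p
    rw [form_eq, hl1, hl2, hl3]
    ring
  have hpen0 : pen A 0 = 0 := by
    have := pen_smul A 0 0
    rwa [zero_smul, Complex.ofReal_zero, zero_smul] at this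
  have hp₁0 : p₁ ≠ 0 := by
    rintro rfl
    exact hind (hs₁ η (by rw [hpen0, zero_mulVec]))
  have hp₂0 : p₂ ≠ 0 := by
    rintro rfl
    exact hind' (hs₂ ξ (by rw [hpen0, zero_mulVec]))
  -- the functional
  obtain ⟨ω, hω0, hω₁, hω₂⟩ : ∃ ω : (ℝ × ℂ) →ₗ[ℝ] ℝ, ω ≠ 0 ∧ ω p₁ = 0 ∧ ω p₂ = 0 := by
    have hlt : Submodule.span ℝ (({p₁, p₂} : Finset (ℝ × ℂ)) : Set (ℝ × ℂ)) < ⊤ := by
      rw [lt_top_iff_ne_top]
      intro htop
      have h1 := finrank_span_finset_le_card (R := ℝ) ({p₁, p₂} : Finset (ℝ × ℂ))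
      have h2 : ({p₁, p₂} : Finset (ℝ × ℂ)).card ≤ 2 := Finset.card_le_two
      unfold Set.finrank at h1
      rw [htop, finrank_top, Module.finrank_prod, Module.finrank_self,
        Complex.finrank_real_complex] at h1
      omega
    obtain ⟨f, hf0, hf⟩ := Submodule.exists_le_ker_of_lt_top _ hlt
    exact ⟨f, hf0, LinearMap.mem_ker.1 (hf (Submodule.subset_span (by simp))),
      LinearMap.mem_ker.1 (hf (Submodule.subset_span (by simp)))⟩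
  obtain ⟨K₁, hK₁, hb₁⟩ := bound_aP hAξ hξ0 hp₁0 hk₁ ω hω₁
  obtain ⟨K₂, hK₂, hb₂⟩ := bound_aP hAη hη0 hp₂0 hk₂ ω hω₂
  obtain ⟨c, hc, hbc⟩ := bound_c (A := A) (ef A ξ + ef A η) (by
    intro p hp hp0
    by_contra hcon
    rw [LinearMap.add_apply] at hcon
    have h1 := ef_nonneg (ξ := ξ) hp
    have h2 := ef_nonneg (ξ := η) hp
    have h3 : ef A ξ p = 0 := by linarith
    have h4 : ef A η p = 0 := by linarith
    obtain ⟨t, ht⟩ := ker_phiP hAξ hξ0 hp₁0 hk₁ (ef_zero hp h3)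
    have h5 := ef_zero hp h4
    have ht0 : t ≠ 0 := by
      rintro rfl
      exact hp0 (by rw [ht, zero_smul])
    rw [ht, pen_smul, smul_mulVec] at h5
    have h6 : pen A p₁ *ᵥ η = 0 := by
      rcases smul_eq_zero.1 h5 with h7 | h7
      · exact absurd (Complex.ofReal_eq_zero.1 h7) ht0
      · exact h7
    exact hind (hs₁ η h6))
  -- the main inequality
  obtain ⟨K, hK, hbK⟩ : ∃ K : ℝ, 0 ≤ K ∧ ∀ p, (pen A p).PosSemidef →
      ω p ^ 2 ≤ K * (ef A ξ p * ef A η p) := by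
    refine ⟨(K₁ + K₂) / c, by positivity, fun p hp => ?_⟩
    by_cases h0 : p = 0
    · rw [h0, map_zero, map_zero, map_zero]
      simp
    have hn0 : 0 < ‖p‖ := norm_pos_iff.2 h0
    have e₁ := ef_nonneg (ξ := ξ) hp
    have e₂ := ef_nonneg (ξ := η) hp
    have h1 := mul_le_mul_of_nonneg_right (hb₁ p hp) e₂
    have h2 := mul_le_mul_of_nonneg_right (hb₂ p hp) e₁
    have h3 := hbc p hp
    rw [LinearMap.add_apply] at h3
    have h4 := mul_le_mul_of_nonneg_left h3 (sq_nonneg (ω p))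
    rw [div_mul_eq_mul_div, le_div_iff₀ hc]
    have h5 : (ω p ^ 2 * c) * ‖p‖ ≤ ((K₁ + K₂) * (ef A ξ p * ef A η p)) * ‖p‖ := by nlinarith
    exact le_of_mul_le_mul_right h5 hn0
  obtain ⟨γ, hγ, hγK⟩ : ∃ γ : ℝ, 0 < γ ∧ γ ^ 2 * K < 1 := by
    refine ⟨1 / (K + 1), by positivity, ?_⟩
    rw [div_pow, one_pow, div_mul_eq_mul_div, div_lt_one (by positivity)]
    nlinarith
  have hsq : ∀ p, (pen A p).PosSemidef → (γ * ω p) ^ 2 ≤ ef A ξ p * ef A η p := by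
    intro p hp
    have h1 := hbK p hp
    have h2 : 0 ≤ ef A ξ p * ef A η p := mul_nonneg (ef_nonneg hp) (ef_nonneg hp)
    rw [mul_pow]
    have h3 := mul_le_mul_of_nonneg_left h1 (sq_nonneg γ)
    nlinarith
  have hform1 : ∀ (ζ : Fin n → ℂ) (p : ℝ × ℂ), ((ef A ζ p : ℝ) : ℂ) =
      (p.1 : ℂ) * ((ef A ζ (1, 0) : ℝ) : ℂ) + p.2 * (star ζ ⬝ᵥ (A *ᵥ ζ)) +
        starRingEnd ℂ (p.2 * (star ζ ⬝ᵥ (A *ᵥ ζ))) := by
    intro ζ p
    rw [← form_real, ← form_real, pen_one, one_mulVec, form_eq, quad_conjTranspose, map_mul]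
  -- the matrices
  obtain ⟨b, hb⟩ : ∃ b : ℂ, b = ((ω (0, 1) : ℝ) - Complex.I * (ω (0, Complex.I) : ℝ)) / 2 :=
    ⟨_, rfl⟩
  have hform2 : ∀ p : ℝ × ℂ, ((ω p : ℝ) : ℂ) = (p.1 : ℂ) * ((ω (1, 0) : ℝ) : ℂ) + p.2 * b +
      starRingEnd ℂ (p.2 * b) := by
    intro p
    rw [hb]
    exact omega_eq ω p
  obtain ⟨G, hG⟩ : ∃ G : Matrix (Fin 2) (Fin 2) ℂ, G =
      !![((ef A ξ (1, 0) : ℝ) : ℂ), ((γ * ω (1, 0) : ℝ) : ℂ);
        ((γ * ω (1, 0) : ℝ) : ℂ), ((ef A η (1, 0) : ℝ) : ℂ)] := ⟨_, rfl⟩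
  obtain ⟨B, hB⟩ : ∃ B : Matrix (Fin 2) (Fin 2) ℂ, B =
      !![star ξ ⬝ᵥ (A *ᵥ ξ), (γ : ℂ) * b; (γ : ℂ) * b, star η ⬝ᵥ (A *ᵥ η)] := ⟨_, rfl⟩
  have hM : ∀ p : ℝ × ℂ, (p.1 : ℂ) • G + p.2 • B + (p.2 • B)ᴴ =
      !![((ef A ξ p : ℝ) : ℂ), ((γ * ω p : ℝ) : ℂ);
        ((γ * ω p : ℝ) : ℂ), ((ef A η p : ℝ) : ℂ)] := by
    intro p
    have h2 := hform2 p
    have h3 : ((γ * ω p : ℝ) : ℂ) = (p.1 : ℂ) * ((γ * ω (1, 0) : ℝ) : ℂ) +
        p.2 * ((γ : ℂ) * b) + starRingEnd ℂ (p.2 * ((γ : ℂ) * b)) := by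
      rw [Complex.ofReal_mul, h2, map_mul, map_mul, map_mul, Complex.conj_ofReal]
      push_cast
      ring
    rw [h3, hform1 ξ p, hform1 η p, hG, hB]
    ext i j
    fin_cases i <;> fin_cases j <;> simp
  have hone : (pen A (1, 0)).PosSemidef := by
    rw [pen_one]
    exact PosSemidef.one
  have hepos : ∀ ζ : Fin n → ℂ, ζ ≠ 0 → 0 < ef A ζ (1, 0) := by
    intro ζ hζ
    refine lt_of_le_of_ne (ef_nonneg hone) (fun h => hζ ?_)
    have h1 := ef_zero hone h.symm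
    rwa [pen_one, one_mulVec] at h1
  have hGpd : G.PosDef := by
    rw [hG]
    refine pd2 (hepos ξ hξ0) (hepos η hη0) ?_
    have h1 := hbK _ hone
    have h2 : 0 < ef A ξ (1, 0) * ef A η (1, 0) := mul_pos (hepos ξ hξ0) (hepos η hη0)
    rw [mul_pow]
    have h3 := mul_le_mul_of_nonneg_left h1 (sq_nonneg γ)
    nlinarith
  obtain ⟨N, V, hVG, hVB⟩ := hSch n 2 A G B hn hD hGpd (by
    intro p hp
    rw [hM]
    exact psd2 (ef_nonneg hp) (ef_nonneg hp) (hsq p hp))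
  have hsum : ∀ p : ℝ × ℂ, !![((ef A ξ p : ℝ) : ℂ), ((γ * ω p : ℝ) : ℂ);
        ((γ * ω p : ℝ) : ℂ), ((ef A η p : ℝ) : ℂ)] = ∑ q, (V q)ᴴ * pen A p * V q := by
    intro p
    have key : ∀ q, (V q)ᴴ * pen A p * V q = (p.1 : ℂ) • ((V q)ᴴ * V q) +
        p.2 • ((V q)ᴴ * A * V q) + (p.2 • ((V q)ᴴ * A * V q))ᴴ := by
      intro q
      unfold pen
      rw [Matrix.mul_add, Matrix.mul_add, Matrix.add_mul, Matrix.add_mul, Matrix.mul_smul,
        Matrix.mul_one, Matrix.smul_mul, Matrix.mul_smul, Matrix.smul_mul]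
      congr 1
      rw [conjTranspose_smul, conjTranspose_smul, conjTranspose_mul, conjTranspose_mul,
        conjTranspose_conjTranspose, Matrix.mul_smul, Matrix.smul_mul, Matrix.mul_assoc]
    rw [← hM, hVG, hVB, Finset.smul_sum, Finset.smul_sum, conjTranspose_sum,
      ← Finset.sum_add_distrib, ← Finset.sum_add_distrib]
    exact Finset.sum_congr rfl fun q _ => (key q).symm
  have hentry : ∀ (p : ℝ × ℂ) (q : Fin N) (i j : Fin 2), ((V q)ᴴ * pen A p * V q) i j =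
      star (V q *ᵥ Pi.single i 1) ⬝ᵥ (pen A p *ᵥ (V q *ᵥ Pi.single j 1)) := by
    intro p q i j
    have h1 : ((V q)ᴴ * pen A p * V q) i j =
        star (Pi.single i 1 : Fin 2 → ℂ) ⬝ᵥ (((V q)ᴴ * pen A p * V q) *ᵥ Pi.single j 1) := by
      simp [Pi.star_single]
    rw [h1, star_mulVec, ← dotProduct_mulVec, mulVec_mulVec, mulVec_mulVec]
  have hcol : ∀ (i : Fin 2) (p : ℝ × ℂ), (pen A p).PosSemidef →
      (∑ q, (V q)ᴴ * pen A p * V q) i i = 0 → ∀ q, pen A p *ᵥ (V q *ᵥ Pi.single i 1) = 0 := by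
    intro i p hp h0 q
    rw [Matrix.sum_apply] at h0
    have h1 : ∑ q, ef A (V q *ᵥ Pi.single i 1) p = 0 := by
      have h2 : ((∑ q, ef A (V q *ᵥ Pi.single i 1) p : ℝ) : ℂ) = 0 := by
        push_cast
        rw [← h0]
        refine Finset.sum_congr rfl fun q _ => ?_
        rw [hentry, form_real]
      exact_mod_cast h2
    exact ef_zero hp ((Finset.sum_eq_zero_iff_of_nonneg (fun q _ => ef_nonneg hp)).1 h1 q
      (Finset.mem_univ q))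
  have hz₁ : ef A ξ p₁ = 0 := by
    rw [ef_apply, hk₁, dotProduct_zero, Complex.zero_re]
  have hz₂ : ef A η p₂ = 0 := by
    rw [ef_apply, hk₂, dotProduct_zero, Complex.zero_re]
  have hc₀ : ∀ q, ∃ d : ℂ, V q *ᵥ Pi.single 0 1 = d • ξ := fun q =>
    hs₁ _ (hcol 0 p₁ hp₁ (by rw [← hsum, hz₁]; simp) q)
  have hc₁ : ∀ q, ∃ d : ℂ, V q *ᵥ Pi.single 1 1 = d • η := fun q =>
    hs₂ _ (hcol 1 p₂ hp₂ (by rw [← hsum, hz₂]; simp) q)
  apply hω0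
  refine LinearMap.ext fun p => ?_
  have h1 : ((γ * ω p : ℝ) : ℂ) = 0 := by
    have h2 : ((γ * ω p : ℝ) : ℂ) = (∑ q, (V q)ᴴ * pen A p * V q) 0 1 := by
      rw [← hsum]
      simp
    rw [h2, Matrix.sum_apply]
    refine Finset.sum_eq_zero fun q _ => ?_
    obtain ⟨d, hd⟩ := hc₀ q
    obtain ⟨d', hd'⟩ := hc₁ q
    rw [hentry, hd, hd', mulVec_smul, dotProduct_smul, star_smul, smul_dotProduct, hcross,
      smul_zero, smul_zero]
  have h2 := Complex.ofReal_eq_zero.1 h1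
  rcases mul_eq_zero.1 h2 with h3 | h3
  · exact absurd h3 hγ.ne'
  · rw [h3]
    rfl

end Pool.Agent.K3h28.NR
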