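import Pool.Agent.K3h28.NR.CompD

/-!
# Proof of S_MAIN (helper28)
-/

set_option autoImplicit false

open Matrix Filter Topology
open scoped ComplexOrder

namespace Pool.Agent.K3h28.NR

open Pool.Agent.Helper774

theorem dot_conj {m : ℕ} (x y : Fin m → ℂ) :
    starRingEnd ℂ (star x ⬝ᵥ y) = star y ⬝ᵥ x := by
  rw [starRingEnd_apply, ← Matrix.star_dotProduct_star, star_star]

theorem dot_mul_conj {m : ℕ} (A : Matrix (Fin m) (Fin m) ℂ) (x y : Fin m → ℂ) :
    starRingEnd ℂ (star x ⬝ᵥ (A *ᵥ y)) = star y ⬝ᵥ (Aᴴ *ᵥ x) := by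
  rw [dot_conj, Matrix.star_mulVec, Matrix.dotProduct_mulVec]

theorem nonneg_of_herm {m : ℕ} (F : Matrix (Fin m) (Fin m) ℂ) (hF : F.IsHermitian)
    (x : Fin m → ℂ) : (star x ⬝ᵥ (F *ᵥ x)).im = 0 := by
  have h := dot_mul_conj F x x
  rw [hF.eq] at h
  have := congrArg Complex.im h
  rw [Complex.conj_im] at this
  linarith

theorem quad_expand {m : ℕ} (C : Fin m → Fin m → ℝ) (Y : Matrix (Fin m) (Fin m) ℂ)
    (x : Fin m → ℂ) :
    star x ⬝ᵥ ((Matrix.of fun i j => (C i j : ℂ) * Y i j) *ᵥ x)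
      = ∑ i, ∑ j, (C i j : ℂ) * (starRingEnd ℂ (x i) * x j * Y i j) := by
  simp only [dotProduct, Matrix.mulVec, Finset.mul_sum, Pi.star_apply, RCLike.star_def,
    Matrix.of_apply]
  apply Finset.sum_congr rfl
  intro i _
  apply Finset.sum_congr rfl
  intro j _
  ring

theorem schur_herm {m : ℕ} (C : Fin m → Fin m → ℝ) (hC : ∀ i j, C i j = C j i)
    (Y : Matrix (Fin m) (Fin m) ℂ) (hY : Y.IsHermitian) :
    (Matrix.of fun i j => (C i j : ℂ) * Y i j).IsHermitian := by
  ext i j
  rw [Matrix.conjTranspose_apply, Matrix.of_apply, Matrix.of_apply, RCLike.star_def, map_mul,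
    Complex.conj_ofReal, hC j i]
  congr 1
  have := congrFun (congrFun hY i) j
  rw [Matrix.conjTranspose_apply] at this
  exact this

theorem main_of (hS : S_SCHUR) (hCo : S_COMP) : S_MAIN := by
  intro n A hD hpen η hη hsimp hlink
  by_contra hno
  obtain ⟨C, z, hsymm, hdiag, hneg, hpos, hstrict⟩ := hCo n A hpen hno η hη
  set G : Matrix (Fin (n + 2)) (Fin (n + 2)) ℂ :=
    Matrix.of fun i j => (C i j : ℂ) * (Matrix.of fun i j => star (η i) ⬝ᵥ η j) i j with hG
  set B : Matrix (Fin (n + 2)) (Fin (n + 2)) ℂ :=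
    Matrix.of fun i j => (C i j : ℂ) * (star (η i) ⬝ᵥ (A *ᵥ η j)) with hB
  have hGh : G.IsHermitian := by
    apply schur_herm C hsymm
    ext i j
    rw [Matrix.conjTranspose_apply, Matrix.of_apply, Matrix.of_apply, RCLike.star_def, dot_conj]
  have hGpos : G.PosDef := by
    apply Matrix.PosDef.of_dotProduct_mulVec_pos hGh
    intro x hx
    rw [Complex.lt_def]
    refine ⟨?_, ?_⟩
    · rw [hG, quad_expand]
      have := hstrict x hx
      simpa only [Matrix.of_apply, Complex.zero_re] using this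
    · rw [nonneg_of_herm G hGh x, Complex.zero_im]
  have hpencil : ∀ p : ℝ × ℂ, ((p.1 : ℂ) • G + p.2 • B + (p.2 • B)ᴴ)
      = Matrix.of fun i j => (C i j : ℂ) * MM A η p i j := by
    intro p
    ext i j
    rw [Matrix.add_apply, Matrix.add_apply, Matrix.conjTranspose_apply, Matrix.smul_apply,
      Matrix.smul_apply, Matrix.smul_apply, Matrix.of_apply, MM_apply, pen_form, hG, hB]
    simp only [Matrix.of_apply, smul_eq_mul, RCLike.star_def, map_mul, Complex.conj_ofReal,
      dot_mul_conj]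
    rw [hsymm j i]
    ring
  obtain ⟨N, V, hV1, hV2⟩ := hS (n + 2) (n + 2) A G B (by omega) hD hGpos (by
    intro p hp
    rw [hpencil]
    have hMh : (MM A η p).IsHermitian := (MM_psd A η p hp).1
    have hh := schur_herm C hsymm _ hMh
    apply Matrix.PosSemidef.of_dotProduct_mulVec_nonneg hh
    intro x
    rw [Complex.le_def]
    refine ⟨?_, ?_⟩
    · rw [quad_expand, Complex.zero_re]
      exact hpos p hp x
    · rw [nonneg_of_herm _ hh x, Complex.zero_im])
  -- entries
  have hent : ∀ (M : Matrix (Fin (n + 2)) (Fin (n + 2)) ℂ) (q : Fin N) (i j : Fin (n + 2)),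
      ((V q)ᴴ * M * V q) i j = star (fun a => V q a i) ⬝ᵥ (M *ᵥ (fun a => V q a j)) := by
    intro M q i j
    rw [Matrix.mul_assoc, Matrix.mul_apply]
    simp only [dotProduct, Matrix.mulVec, Matrix.mul_apply, Matrix.conjTranspose_apply,
      Pi.star_apply]
  have hcol : ∀ q i, ∃ c : ℂ, (fun a => V q a i) = c • η i := by
    intro q i
    obtain ⟨hne, p, hp, hker, hone⟩ := hsimp i
    apply hone
    have hsum : (∑ q, (V q)ᴴ * pen A p * V q) = (p.1 : ℂ) • G + p.2 • B + (p.2 • B)ᴴ := by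
      rw [hV1, hV2, Finset.smul_sum, Finset.smul_sum, Matrix.conjTranspose_sum,
        ← Finset.sum_add_distrib, ← Finset.sum_add_distrib]
      apply Finset.sum_congr rfl
      intro q _
      unfold pen
      rw [Matrix.mul_add, Matrix.mul_add, Matrix.add_mul, Matrix.add_mul, Matrix.mul_smul,
        Matrix.mul_smul, Matrix.smul_mul, Matrix.smul_mul, Matrix.mul_one,
        Matrix.conjTranspose_smul, Matrix.conjTranspose_smul, Matrix.conjTranspose_mul,
        Matrix.conjTranspose_mul, Matrix.conjTranspose_conjTranspose, Matrix.mul_smul,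
        Matrix.smul_mul, ← Matrix.mul_assoc]
    have hzero : (∑ q, (V q)ᴴ * pen A p * V q) i i = 0 := by
      rw [hsum, hpencil, Matrix.of_apply, MM_apply, hker, dotProduct_zero, mul_zero]
    rw [Matrix.sum_apply] at hzero
    simp only [hent] at hzero
    have hz := (Finset.sum_eq_zero_iff_of_nonneg
      (fun q _ => hp.dotProduct_mulVec_nonneg (fun a => V q a i))).mp hzero q (Finset.mem_univ q)
    exact (hp.dotProduct_mulVec_zero_iff _).mp hz
  choose α hα using hcol
  have hK1 : ∀ (M : Matrix (Fin (n + 2)) (Fin (n + 2)) ℂ) (i j : Fin (n + 2)),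
      (∑ q, (V q)ᴴ * M * V q) i j = (∑ q, starRingEnd ℂ (α q i) * α q j)
        * (star (η i) ⬝ᵥ (M *ᵥ η j)) := by
    intro M i j
    rw [Matrix.sum_apply, Finset.sum_mul]
    apply Finset.sum_congr rfl
    intro q _
    rw [hent, hα, hα, Matrix.mulVec_smul, star_smul, smul_dotProduct, dotProduct_smul,
      smul_eq_mul, smul_eq_mul, RCLike.star_def]
    ring
  have hCK : ∀ i j, (C i j : ℂ) = ∑ q, starRingEnd ℂ (α q i) * α q j := by
    have hg : ∀ i j, (C i j : ℂ) * (star (η i) ⬝ᵥ η j)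
        = (∑ q, starRingEnd ℂ (α q i) * α q j) * (star (η i) ⬝ᵥ η j) := by
      intro i j
      have h1 := hK1 1 i j
      simp only [Matrix.mul_one, Matrix.one_mulVec] at h1
      rw [← h1, ← hV1, hG]
      rfl
    have hb : ∀ i j, (C i j : ℂ) * (star (η i) ⬝ᵥ (A *ᵥ η j))
        = (∑ q, starRingEnd ℂ (α q i) * α q j) * (star (η i) ⬝ᵥ (A *ᵥ η j)) := by
      intro i j
      rw [← hK1 A i j, ← hV2, hB]
      rfl
    have hbh : ∀ i j, (C i j : ℂ) * (star (η i) ⬝ᵥ (Aᴴ *ᵥ η j))
        = (∑ q, starRingEnd ℂ (α q i) * α q j) * (star (η i) ⬝ᵥ (Aᴴ *ᵥ η j)) := by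
      intro i j
      have h1 := congrArg (starRingEnd ℂ) (hb j i)
      rw [map_mul, map_mul, dot_mul_conj, Complex.conj_ofReal, hsymm j i, map_sum] at h1
      rw [h1]
      congr 1
      apply Finset.sum_congr rfl
      intro q _
      rw [map_mul, Complex.conj_conj, mul_comm]
    intro i j
    by_cases hij : i = j
    · have hne : star (η i) ⬝ᵥ η j ≠ 0 := by
        rw [← hij]
        intro h
        exact hη.ne_zero i (dotProduct_star_self_eq_zero.mp h)
      exact mul_right_cancel₀ hne (hg i j)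
    · rcases hlink i j hij with h | h | h
      · exact mul_right_cancel₀ h (hg i j)
      · exact mul_right_cancel₀ h (hb i j)
      · exact mul_right_cancel₀ h (hbh i j)
  -- positivity
  have hfin : ((∑ i, ∑ j, C i j * z i * z j : ℝ) : ℂ)
      = ((∑ q, ‖∑ j, (z j : ℂ) * α q j‖ ^ 2 : ℝ) : ℂ) := by
    push_cast
    have h : ∀ q, ((‖∑ j, (z j : ℂ) * α q j‖ : ℂ)) ^ 2
        = ∑ i, ∑ j, ((z i : ℂ) * z j) * (starRingEnd ℂ (α q i) * α q j) := by
      intro q
      rw [← Complex.conj_mul' (∑ j, (z j : ℂ) * α q j), map_sum, Finset.sum_mul_sum]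
      apply Finset.sum_congr rfl
      intro i _
      apply Finset.sum_congr rfl
      intro j _
      rw [map_mul, Complex.conj_ofReal]
      ring
    simp only [h, hCK]
    rw [Finset.sum_comm]
    conv_rhs => rw [Finset.sum_comm]
    rw [Finset.sum_comm]
    apply Finset.sum_congr rfl
    intro i _
    rw [Finset.sum_comm]
    apply Finset.sum_congr rfl
    intro j _
    rw [Finset.sum_mul, Finset.sum_mul]
    apply Finset.sum_congr rfl
    intro q _
    ring
  have hfin' := Complex.ofReal_injective hfin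
  rw [hfin'] at hneg
  exact absurd hneg (not_lt.mpr (Finset.sum_nonneg fun q _ => by positivity))

end Pool.Agent.K3h28.NR
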