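import Pool.Agent.K3h28.NR.SimA

/-!
# With simple boundary eigenvalues a simple vector is no common eigenvector (helper28)
-/

set_option autoImplicit false

open Matrix Filter Topology
open scoped ComplexOrder

namespace Pool.Agent.K3h28.NR

open Pool.Agent.Helper774

/-- the parameter whose matrix kills the common eigenvector -/
noncomputable def qq (a w : ℂ) : ℝ × ℂ := (-2 * (w * a).re, w)

theorem continuous_qq (a : ℂ) : Continuous (qq a) := by
  unfold qq
  exact (continuous_const.mul (Complex.continuous_re.comp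
    (continuous_id.mul continuous_const))).prodMk continuous_id

theorem pen_vec {n : ℕ} (A : Matrix (Fin n) (Fin n) ℂ) (p : ℝ × ℂ) (x : Fin n → ℂ) :
    pen A p *ᵥ x = (p.1 : ℂ) • x + p.2 • (A *ᵥ x) + starRingEnd ℂ p.2 • (Aᴴ *ᵥ x) := by
  unfold pen
  rw [Matrix.add_mulVec, Matrix.add_mulVec, Matrix.smul_mulVec, Matrix.one_mulVec,
    Matrix.smul_mulVec, Matrix.conjTranspose_smul, Matrix.smul_mulVec]
  rfl

theorem common_conj {n : ℕ} (A : Matrix (Fin n) (Fin n) ℂ) (ξ : Fin n → ℂ) (hξ : ξ ≠ 0)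
    (a b : ℂ) (h1 : A *ᵥ ξ = a • ξ) (h2 : Aᴴ *ᵥ ξ = b • ξ) : b = starRingEnd ℂ a := by
  have h3 := dot_mul_conj A ξ ξ
  rw [h1, h2, dotProduct_smul, dotProduct_smul, smul_eq_mul, smul_eq_mul, map_mul, dot_conj] at h3
  have h4 : star ξ ⬝ᵥ ξ ≠ 0 := fun h => hξ (dotProduct_star_self_eq_zero.mp h)
  exact (mul_right_cancel₀ h4 h3).symm

theorem qq_kills {n : ℕ} (A : Matrix (Fin n) (Fin n) ℂ) (ξ : Fin n → ℂ)
    (a : ℂ) (h1 : A *ᵥ ξ = a • ξ) (h2 : Aᴴ *ᵥ ξ = (starRingEnd ℂ a) • ξ) (w : ℂ) :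
    pen A (qq a w) *ᵥ ξ = 0 := by
  rw [pen_vec, h1, h2]
  have e : ((-2 * (w * a).re : ℝ) : ℂ) = - (w * a + starRingEnd ℂ (w * a)) := by
    rw [Complex.add_conj]
    push_cast
    ring
  show ((-2 * (w * a).re : ℝ) : ℂ) • ξ + w • (a • ξ) + starRingEnd ℂ w • (starRingEnd ℂ a • ξ) = 0
  rw [e, map_mul, smul_smul, smul_smul, ← add_smul, ← add_smul]
  have : -(w * a + starRingEnd ℂ w * starRingEnd ℂ a) + w * a + starRingEnd ℂ w * starRingEnd ℂ a
      = 0 := by ring
  rw [this, zero_smul]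

/-- openness -/
theorem qq_open {n : ℕ} (A : Matrix (Fin n) (Fin n) ℂ) (hA : SB A) (ξ : Fin n → ℂ)
    (hξ : ξ ≠ 0) (a : ℂ) (h1 : A *ᵥ ξ = a • ξ) (h2 : Aᴴ *ᵥ ξ = (starRingEnd ℂ a) • ξ) (w : ℂ)
    (hw : w ≠ 0) (hp : (pen A (qq a w)).PosSemidef) :
    ∀ᶠ w' in 𝓝 w, (pen A (qq a w')).PosSemidef := by
  by_contra hcon
  have hfreq : ∃ᶠ w' in 𝓝 w, ¬ (pen A (qq a w')).PosSemidef := Filter.not_eventually.mp hcon
  obtain ⟨ws, hws, hns⟩ := exists_seq_forall_of_frequently hfreq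
  have hy : ∀ k, ∃ y : Fin n → ℂ, ‖y‖ = 1 ∧ star ξ ⬝ᵥ y = 0 ∧
      (star y ⬝ᵥ (pen A (qq a (ws k)) *ᵥ y)).re ≤ 0 := by
    intro k
    obtain ⟨μ, y, hμ, hy0, hMy, -⟩ := Pool.Agent.K3h90.NR.exists_neg _
      (Pool.Agent.K3h90.NR.pen_herm A _) (hns k)
    have hny : 0 < ‖y‖ := norm_pos_iff.mpr hy0
    refine ⟨((‖y‖⁻¹ : ℝ) : ℂ) • y, ?_, ?_, ?_⟩
    · rw [norm_smul, Complex.norm_real, norm_inv, norm_norm, inv_mul_cancel₀ hny.ne']
    · rw [dotProduct_smul]
      have e1 : star ξ ⬝ᵥ (pen A (qq a (ws k)) *ᵥ y) = 0 := by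
        rw [Matrix.dotProduct_mulVec]
        have e2 : star ξ ᵥ* pen A (qq a (ws k)) = star (pen A (qq a (ws k)) *ᵥ ξ) := by
          rw [Matrix.star_mulVec, (Pool.Agent.K3h90.NR.pen_herm A _).eq]
        rw [e2, qq_kills A ξ a h1 h2, star_zero, zero_dotProduct]
      rw [hMy, dotProduct_smul, smul_eq_mul] at e1
      have e3 : star ξ ⬝ᵥ y = 0 := by
        rcases mul_eq_zero.mp e1 with h | h
        · exact absurd (Complex.ofReal_eq_zero.mp h) hμ.ne
        · exact h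
      rw [e3, smul_zero]
    · rw [Matrix.mulVec_smul, hMy, dotProduct_smul, star_smul, smul_dotProduct, dotProduct_smul,
        smul_eq_mul, smul_eq_mul, smul_eq_mul, dot_self_eq, RCLike.star_def, Complex.conj_ofReal,
        ← Complex.ofReal_mul, ← Complex.ofReal_mul, ← Complex.ofReal_mul, Complex.ofReal_re]
      have e4 : 0 ≤ ∑ i, ‖y i‖ ^ 2 := Finset.sum_nonneg fun i _ => by positivity
      have e5 : μ * ∑ i, ‖y i‖ ^ 2 ≤ 0 := mul_nonpos_of_nonpos_of_nonneg hμ.le e4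
      have e6 : 0 ≤ ‖y‖⁻¹ * ‖y‖⁻¹ := by positivity
      nlinarith
  choose y hy1 hy2 hy3 using hy
  obtain ⟨y0, hy0, φ, hφ, hlim⟩ := (isCompact_sphere (0 : Fin n → ℂ) 1).tendsto_subseq
    (x := y) (fun k => by simpa using hy1 k)
  have hn0 : ‖y0‖ = 1 := by simpa using hy0
  have hlimi : ∀ i, Tendsto (fun k => y (φ k) i) atTop (𝓝 (y0 i)) := fun i =>
    ((continuous_apply i).tendsto y0).comp hlim
  have hwlim : Tendsto (fun k => ws (φ k)) atTop (𝓝 w) := hws.comp hφ.tendsto_atTop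
  have g1 : star ξ ⬝ᵥ y0 = 0 := by
    have : Tendsto (fun k => star ξ ⬝ᵥ y (φ k)) atTop (𝓝 (star ξ ⬝ᵥ y0)) := by
      simp only [dotProduct]
      exact tendsto_finsetSum _ fun i _ => tendsto_const_nhds.mul (hlimi i)
    simp only [hy2] at this
    exact (tendsto_nhds_unique this tendsto_const_nhds)
  have g2 : (star y0 ⬝ᵥ (pen A (qq a w) *ᵥ y0)).re ≤ 0 := by
    have hent : ∀ i j, Tendsto (fun k => pen A (qq a (ws (φ k))) i j) atTop
        (𝓝 (pen A (qq a w) i j)) := by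
      intro i j
      have hc : Continuous fun p : ℝ × ℂ => pen A p i j := by
        unfold pen
        simp only [Matrix.add_apply, Matrix.smul_apply, Matrix.conjTranspose_apply, smul_eq_mul,
          RCLike.star_def]
        exact ((Complex.continuous_ofReal.comp continuous_fst).mul continuous_const |>.add
          (continuous_snd.mul continuous_const)).add
          (Complex.continuous_conj.comp (continuous_snd.mul continuous_const))
      exact ((hc.comp (continuous_qq a)).tendsto w).comp hwlim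
    have ht : Tendsto (fun k => (star (y (φ k)) ⬝ᵥ (pen A (qq a (ws (φ k))) *ᵥ y (φ k))).re) atTop
        (𝓝 (star y0 ⬝ᵥ (pen A (qq a w) *ᵥ y0)).re) := by
      apply (Complex.continuous_re.tendsto _).comp
      simp only [dotProduct, Matrix.mulVec, Pi.star_apply]
      apply tendsto_finsetSum
      intro i _
      apply Tendsto.mul (hlimi i).star
      apply tendsto_finsetSum
      intro j _
      exact (hent i j).mul (hlimi j)
    exact le_of_tendsto' ht fun k => hy3 (φ k)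
  have g3 : star y0 ⬝ᵥ (pen A (qq a w) *ᵥ y0) = 0 := by
    have h0 := hp.dotProduct_mulVec_nonneg y0
    rw [Complex.le_def] at h0
    apply Complex.ext
    · exact le_antisymm g2 h0.1
    · exact h0.2.symm
  have g4 := (hp.dotProduct_mulVec_zero_iff y0).mp g3
  obtain ⟨c, hc⟩ := hA (qq a w) hw hp ξ y0 (qq_kills A ξ a h1 h2 w) g4 hξ
  rw [hc, dotProduct_smul, smul_eq_mul] at g1
  have h4 : star ξ ⬝ᵥ ξ ≠ 0 := fun h => hξ (dotProduct_star_self_eq_zero.mp h)
  have hc0 : c = 0 := (mul_eq_zero.mp g1).resolve_right h4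
  rw [hc, hc0, zero_smul, norm_zero] at hn0
  exact zero_ne_one hn0

/-- a simple vector is not a common eigenvector -/
theorem simple_not_common {n : ℕ} (A : Matrix (Fin (n + 2)) (Fin (n + 2)) ℂ) (hA : SB A)
    (ξ : Fin (n + 2) → ℂ) (hs : Simple A ξ) (a b : ℂ) :
    ¬ (A *ᵥ ξ = a • ξ ∧ Aᴴ *ᵥ ξ = b • ξ) := by
  rintro ⟨h1, h2⟩
  obtain ⟨hξ, p, hp, hk, hone⟩ := hs
  have hb := common_conj A ξ hξ a b h1 h2
  rw [hb] at h2
  have hpq : p = qq a p.2 := by
    have e1 := hk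
    rw [pen_vec, h1, h2, smul_smul, smul_smul, ← add_smul, ← add_smul] at e1
    have e2 := (smul_eq_zero.mp e1).resolve_right hξ
    rw [← map_mul, add_assoc, Complex.add_conj, ← Complex.ofReal_add] at e2
    have e3 := Complex.ofReal_eq_zero.mp e2
    apply Prod.ext
    · show p.1 = -2 * (p.2 * a).re
      linarith
    · rfl
  have hw0 : p.2 ≠ 0 := by
    intro h0
    have hp0 : pen A p = 0 := by
      rw [hpq, h0]
      unfold pen qq
      simp
    obtain ⟨c0, hc0'⟩ := hone (Pi.single 0 1) (by rw [hp0, Matrix.zero_mulVec])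
    obtain ⟨c1, hc1'⟩ := hone (Pi.single 1 1) (by rw [hp0, Matrix.zero_mulVec])
    have q1 := congrFun hc0' 0
    have q3 := congrFun hc1' 0
    have q4 := congrFun hc1' 1
    simp only [Pi.smul_apply, smul_eq_mul, Pi.single_eq_same] at q1 q3 q4
    rw [Pi.single_eq_of_ne (by simp)] at q3
    have r1 : c1 ≠ 0 := by
      rintro rfl
      simp at q4
    have r2 : ξ 0 = 0 := by
      rcases mul_eq_zero.mp q3.symm with h | h
      · exact absurd h r1
      · exact h
    rw [r2, mul_zero] at q1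
    exact one_ne_zero q1
  -- the clopen set
  have hsub : ({0}ᶜ : Set ℂ) ⊆ {w : ℂ | w ≠ 0 ∧ (pen A (qq a w)).PosSemidef} := by
    apply (isConnected_compl_singleton_of_one_lt_rank (E := ℂ) (by
      rw [Complex.rank_real_complex]; norm_num) (0 : ℂ)).isPreconnected.subset_of_closure_inter_subset
    · rw [isOpen_iff_mem_nhds]
      rintro w ⟨hw, hpw⟩
      have e1 := qq_open A hA ξ hξ a h1 h2 w hw hpw
      have e2 : ∀ᶠ w' in 𝓝 w, w' ≠ 0 := isOpen_ne.mem_nhds hw
      exact (e2.and e1)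
    · refine ⟨p.2, hw0, hw0, ?_⟩
      rw [← hpq]
      exact hp
    · rintro w ⟨hw, hw0'⟩
      refine ⟨hw0', ?_⟩
      have hcl : IsClosed {w : ℂ | (pen A (qq a w)).PosSemidef} :=
        (Pool.Agent.K3h23.NR.isClosed_psd (A := A)).preimage (continuous_qq a)
      have : closure {w : ℂ | w ≠ 0 ∧ (pen A (qq a w)).PosSemidef}
          ⊆ {w : ℂ | (pen A (qq a w)).PosSemidef} :=
        hcl.closure_subset_iff.mpr fun w hw => hw.2
      exact this hw
  have hneg : (pen A (qq a (-p.2))).PosSemidef := (hsub (a := -p.2) (by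
    simpa using hw0)).2
  have e1 : qq a (-p.2) = (-p.1, -p.2) := by
    apply Prod.ext
    · show -2 * (-p.2 * a).re = -p.1
      have e2 : (-p.2 * a).re = -(p.2 * a).re := by rw [neg_mul, Complex.neg_re]
      have e3 : p.1 = -2 * (p.2 * a).re := congrArg Prod.fst hpq
      rw [e2, e3]
      ring
    · rfl
  rw [e1] at hneg
  apply tops_indep A hA p.2 hw0 p.1 (-p.1) ξ ξ hp hneg hξ hξ hk
  · have := qq_kills A ξ a h1 h2 (-p.2)
    rw [e1] at this
    exact this
  · exact ⟨1, (one_smul ℂ ξ).symm⟩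

end Pool.Agent.K3h28.NR
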