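import Pool.Agent.K3h28.NR.MainG
import Pool.Agent.K3h13.NR.Mwi
import Pool.Agent.K3h24.NR.SCHUR
import Pool.Agent.K3h60.NR.PEN0
import Pool.Agent.K3h90.NR.Span
import Pool.Agent.K3h23.NR.Link

/-!
# Matrices with simple boundary eigenvalues (helper28)
-/

set_option autoImplicit false

open Matrix Filter Topology
open scoped ComplexOrder

namespace Pool.Agent.K3h28.NR

open Pool.Agent.Helper774

/-- the kernel of a positive semidefinite element of the pencil has dimension at most one -/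
def SB {n : ℕ} (A : Matrix (Fin n) (Fin n) ℂ) : Prop :=
  ∀ p : ℝ × ℂ, p.2 ≠ 0 → (pen A p).PosSemidef → ∀ x y : Fin n → ℂ,
    pen A p *ᵥ x = 0 → pen A p *ᵥ y = 0 → x ≠ 0 → ∃ c : ℂ, y = c • x

theorem frame {m : ℕ} (A : Matrix (Fin m) (Fin m) ℂ) :
    ∃ (K : ℕ) (V : Matrix (Fin m) (Fin K) ℂ) (β : Fin K → (Fin K → ℂ)),
      Vᴴ * V = 1 ∧ LinearIndependent ℂ β ∧ (∀ i, Simple A (V *ᵥ β i)) ∧
      (∀ y, Simple A y → ∃ c, y = V *ᵥ c) := by
  obtain ⟨b, hb, hspan, hli⟩ := exists_linearIndependent ℂ {η : Fin m → ℂ | Simple A η}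
  have hfin : Finite b := hli.finite
  have : Fintype b := Fintype.ofFinite b
  obtain ⟨K, hK⟩ : ∃ K, Fintype.card b = K := ⟨_, rfl⟩
  let e := (Fintype.equivFinOfCardEq hK).symm
  obtain ⟨η, hη⟩ : ∃ η : Fin K → (Fin m → ℂ), ∀ i, η i = (e i : Fin m → ℂ) := ⟨_, fun _ => rfl⟩
  have hηli : LinearIndependent ℂ η := by
    have h1 := hli.comp e e.injective
    have h2 : η = (Subtype.val ∘ e) := funext hη
    rw [h2]
    exact h1
  have hηs : ∀ i, Simple A (η i) := by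
    intro i
    rw [hη]
    exact hb (e i).2
  set E : Matrix (Fin m) (Fin K) ℂ := Matrix.of fun a j => η j a with hE
  have hEinj : Function.Injective E.mulVec := by
    rw [Matrix.mulVec_injective_iff]
    exact hηli
  have hEpd : (Eᴴ * E).PosDef := Matrix.PosDef.conjTranspose_mul_self E hEinj
  obtain ⟨R, S, hRS, hSR, hGR⟩ := exists_factor _ hEpd
  have hVV : (E * S)ᴴ * (E * S) = 1 := by
    rw [Matrix.conjTranspose_mul, Matrix.mul_assoc, ← Matrix.mul_assoc Eᴴ, hGR]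
    calc Sᴴ * ((Rᴴ * R) * S) = (Sᴴ * Rᴴ) * (R * S) := by simp only [Matrix.mul_assoc]
      _ = 1 := by rw [← Matrix.conjTranspose_mul, hRS, Matrix.conjTranspose_one, Matrix.one_mul]
  have hVR : (E * S) * R = E := by rw [Matrix.mul_assoc, hSR, Matrix.mul_one]
  refine ⟨K, E * S, fun j a => R a j, hVV, ?_, ?_, ?_⟩
  · have hRu : IsUnit R := IsUnit.of_mul_eq_one S hRS
    exact Matrix.linearIndependent_cols_iff_isUnit.mpr hRu
  · intro i
    have h1 : (E * S) *ᵥ (fun a => R a i) = η i := by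
      have h2 : (fun a => R a i) = R *ᵥ Pi.single i 1 := by
        funext a
        rw [Matrix.mulVec_single_one]
        rfl
      rw [h2, Matrix.mulVec_mulVec, hVR, Matrix.mulVec_single_one]
      rfl
    rw [h1]
    exact hηs i
  · intro y hy
    have h1 : y ∈ Submodule.span ℂ b := by
      rw [hspan]
      exact Submodule.subset_span hy
    have h2 : b = Set.range η := by
      ext x
      constructor
      · intro hx
        refine ⟨e.symm ⟨x, hx⟩, ?_⟩
        rw [hη, Equiv.apply_symm_apply]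
      · rintro ⟨i, rfl⟩
        rw [hη]
        exact (e i).2
    rw [h2] at h1
    obtain ⟨c, hc⟩ := (Submodule.mem_span_range_iff_exists_fun ℂ).mp h1
    refine ⟨R *ᵥ c, ?_⟩
    rw [Matrix.mulVec_mulVec, hVR, ← hc]
    funext a
    simp only [Matrix.mulVec, dotProduct, hE, Matrix.of_apply, Finset.sum_apply, Pi.smul_apply,
      smul_eq_mul]
    exact Finset.sum_congr rfl fun i _ => mul_comm _ _

theorem exists_top {n : ℕ} (A : Matrix (Fin (n + 1)) (Fin (n + 1)) ℂ) (w : ℂ) :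
    ∃ (a : ℝ) (y : Fin (n + 1) → ℂ), (pen A (a, w)).PosSemidef ∧ y ≠ 0 ∧
      pen A (a, w) *ᵥ y = 0 := by
  obtain ⟨q, hq⟩ : ∃ q : ℝ, q = (star (Pi.single 0 1 : Fin (n + 1) → ℂ) ⬝ᵥ
    (pen A ((0 : ℝ), w) *ᵥ (Pi.single 0 1))).re := ⟨_, rfl⟩
  have hnot : ¬ (pen A ((-q - 1 : ℝ), w)).PosSemidef := by
    intro h
    have h1 := h.dotProduct_mulVec_nonneg (Pi.single 0 1 : Fin (n + 1) → ℂ)
    have h2 := (Complex.le_def.mp h1).1
    rw [pen_form] at h2
    rw [pen_form] at hq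
    have h3 : star (Pi.single 0 1 : Fin (n + 1) → ℂ) ⬝ᵥ (Pi.single 0 1) = 1 := by simp
    rw [h3] at h2 hq
    simp only [Complex.add_re, Complex.zero_re, mul_one, Complex.ofReal_re, Complex.ofReal_zero]
      at h2 hq
    linarith
  obtain ⟨μ, y, hμ, hy0, hMy, hpsd⟩ := Pool.Agent.K3h90.NR.exists_neg _
    (Pool.Agent.K3h90.NR.pen_herm A _) hnot
  have hs := Pool.Agent.K3h90.NR.pen_shift A ((-q - 1 : ℝ), w) μ
  simp only at hs
  rw [← hs] at hpsd
  refine ⟨-q - 1 - μ, y, hpsd, hy0, ?_⟩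
  rw [hs, Matrix.sub_mulVec, Matrix.smul_mulVec, Matrix.one_mulVec, hMy, sub_self]

theorem pen_add' {n : ℕ} (A : Matrix (Fin n) (Fin n) ℂ) (a b : ℝ) (w : ℂ) :
    pen A (a, w) + pen A (b, -w) = ((a + b : ℝ) : ℂ) • 1 := by
  unfold pen
  simp only
  rw [neg_smul, Matrix.conjTranspose_neg]
  push_cast
  rw [add_smul]
  abel

theorem tops_indep {n : ℕ} (A : Matrix (Fin (n + 2)) (Fin (n + 2)) ℂ) (hA : SB A) (w : ℂ)
    (hw : w ≠ 0) (a b : ℝ) (ξ ζ : Fin (n + 2) → ℂ) (h1 : (pen A (a, w)).PosSemidef)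
    (h2 : (pen A (b, -w)).PosSemidef) (hξ : ξ ≠ 0) (hζ : ζ ≠ 0)
    (h3 : pen A (a, w) *ᵥ ξ = 0) (h4 : pen A (b, -w) *ᵥ ζ = 0) : ¬ ∃ c : ℂ, ζ = c • ξ := by
  rintro ⟨c, hc⟩
  have hc0 : c ≠ 0 := by
    rintro rfl
    exact hζ (by rw [hc, zero_smul])
  have h5 : pen A (b, -w) *ᵥ ξ = 0 := by
    rw [hc, Matrix.mulVec_smul] at h4
    exact (smul_eq_zero.mp h4).resolve_left hc0
  have hadd := pen_add' A a b w
  have h6 : ((a + b : ℝ) : ℂ) • ξ = 0 := by
    have := congrArg (fun M => M *ᵥ ξ) hadd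
    simp only [Matrix.add_mulVec, h3, h5, add_zero, Matrix.smul_mulVec, Matrix.one_mulVec] at this
    exact this.symm
  have h7 : ((a + b : ℝ) : ℂ) = 0 := (smul_eq_zero.mp h6).resolve_right hξ
  rw [h7, zero_smul] at hadd
  have hker : ∀ x, pen A (a, w) *ᵥ x = 0 := by
    intro x
    have e1 := h1.dotProduct_mulVec_nonneg x
    have e2 := h2.dotProduct_mulVec_nonneg x
    have e3 : pen A (b, -w) = - pen A (a, w) := eq_neg_of_add_eq_zero_right hadd
    rw [e3, Matrix.neg_mulVec, dotProduct_neg] at e2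
    have e4 : star x ⬝ᵥ (pen A (a, w) *ᵥ x) = 0 := le_antisymm (by
      have := neg_nonneg.mp e2
      exact this) e1
    exact (h1.dotProduct_mulVec_zero_iff x).mp e4
  obtain ⟨c0, hc0'⟩ := hA (a, w) hw h1 ξ (Pi.single 0 1) h3 (hker _) hξ
  obtain ⟨c1, hc1'⟩ := hA (a, w) hw h1 ξ (Pi.single 1 1) h3 (hker _) hξ
  have q1 := congrFun hc0' 0
  have q2 := congrFun hc0' 1
  have q3 := congrFun hc1' 0
  have q4 := congrFun hc1' 1
  simp only [Pi.smul_apply, smul_eq_mul, Pi.single_eq_same] at q1 q2 q3 q4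
  rw [Pi.single_eq_of_ne (by simp)] at q2 q3
  have r1 : c1 ≠ 0 := by
    rintro rfl
    simp at q4
  have r2 : ξ 0 = 0 := by
    rcases mul_eq_zero.mp q3.symm with h | h
    · exact absurd h r1
    · exact h
  rw [r2, mul_zero] at q1
  exact one_ne_zero q1

end Pool.Agent.K3h28.NR
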