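import Pool.Agent.K3h28.NR.SimB
import Pool.Agent.K3h28.NR.NoCom
import Pool.Agent.K3h28.NR.LinkP

/-!
# Matrices with simple boundary eigenvalues: the main step without further hypothesis (helper28)
-/

set_option autoImplicit false

open Matrix Filter Topology
open scoped ComplexOrder

namespace Pool.Agent.K3h28.NR

open Pool.Agent.Helper774

theorem pen0_of_SB {n : ℕ} (A : Matrix (Fin (n + 2)) (Fin (n + 2)) ℂ) (hA : SB A) (p : ℝ × ℂ)
    (hp : pen A p = 0) : p = 0 := by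
  by_cases h2 : p.2 = 0
  · have e := hp
    unfold pen at e
    rw [h2, zero_smul, Matrix.conjTranspose_zero, add_zero, add_zero] at e
    have e1 := congrFun (congrFun e 0) 0
    rw [Matrix.smul_apply, Matrix.one_apply_eq, smul_eq_mul, mul_one, Matrix.zero_apply] at e1
    exact Prod.ext (Complex.ofReal_eq_zero.mp e1) h2
  · exfalso
    have hker : ∀ x, pen A p *ᵥ x = 0 := fun x => by rw [hp, Matrix.zero_mulVec]
    have hne : (Pi.single 0 1 : Fin (n + 2) → ℂ) ≠ 0 := by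
      intro h
      have := congrFun h 0
      simp at this
    obtain ⟨c, hc⟩ := hA p h2 (by rw [hp]; exact Matrix.PosSemidef.zero) (Pi.single 0 1)
      (Pi.single 1 1) (hker _) (hker _) hne
    have q := congrFun hc 1
    rw [Pi.single_eq_same, Pi.smul_apply, Pi.single_eq_of_ne (by simp), smul_zero] at q
    exact one_ne_zero q

/-- the main step for matrices with simple boundary eigenvalues, no other hypothesis -/
theorem simple_main' (n : ℕ) (A : Matrix (Fin (n + 2)) (Fin (n + 2)) ℂ) (hD : FinPropD A)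
    (hA : SB A) :
    ∃ V : Matrix (Fin (n + 2)) (Fin 2) ℂ, Vᴴ * V = 1 ∧ A * V = V * (Vᴴ * A * V) ∧
      Aᴴ * V = V * (Vᴴ * Aᴴ * V) ∧ MW (Vᴴ * A * V) = MW A := by
  obtain ⟨K, V, β, hV, hβ, hs, hL⟩ := frame A
  have hsim : ∀ (a : ℝ) (w : ℂ) (y : Fin (n + 2) → ℂ), w ≠ 0 → (pen A (a, w)).PosSemidef →
      y ≠ 0 → pen A (a, w) *ᵥ y = 0 → ∃ c, y = V *ᵥ c := by
    intro a w y hw hp hy hk
    exact hL y ⟨hy, (a, w), hp, hk, fun ξ hξ => hA (a, w) hw hp y ξ hk hξ hy⟩
  -- pairs of tops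
  have hpair : ∀ w : ℂ, w ≠ 0 → ∃ (a b : ℝ) (c1 c2 : Fin K → ℂ),
      (w • A + (w • A)ᴴ) *ᵥ (V *ᵥ c1) = (-(a : ℂ)) • (V *ᵥ c1) ∧
      (w • A + (w • A)ᴴ) *ᵥ (V *ᵥ c2) = (b : ℂ) • (V *ᵥ c2) ∧ c1 ≠ 0 ∧
      ¬ ∃ t : ℂ, c2 = t • c1 := by
    intro w hw
    obtain ⟨a, ξ, h1, hξ, h3⟩ := exists_top A w
    obtain ⟨b, ζ, h2, hζ, h4⟩ := exists_top A (-w)
    have hind := tops_indep A hA w hw a b ξ ζ h1 h2 hξ hζ h3 h4
    obtain ⟨c1, hc1⟩ := hsim a w ξ hw h1 hξ h3
    obtain ⟨c2, hc2⟩ := hsim b (-w) ζ (neg_ne_zero.mpr hw) h2 hζ h4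
    refine ⟨a, b, c1, c2, ?_, ?_, ?_, ?_⟩
    · rw [← hc1]
      exact pen_zero_fst A a w ξ h3
    · rw [← hc2]
      have h5 := pen_zero_fst A b (-w) ζ h4
      rw [neg_smul w A, Matrix.conjTranspose_neg, ← neg_add, Matrix.neg_mulVec, neg_smul,
        neg_inj] at h5
      exact h5
    · rintro rfl
      exact hξ (by rw [hc1, Matrix.mulVec_zero])
    · rintro ⟨t, ht⟩
      exact hind ⟨t, by rw [hc2, ht, Matrix.mulVec_smul, ← hc1]⟩
  have hK : ∃ k, K = k + 2 := by
    obtain ⟨a, b, c1, c2, -, -, hc, hi⟩ := hpair 1 one_ne_zero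
    match K, c1, c2, hc, hi with
    | 0, c1, c2, hc, hi => exact absurd (Subsingleton.elim c1 0) hc
    | 1, c1, c2, hc, hi =>
      exfalso
      have h0 : c1 0 ≠ 0 := by
        intro h
        apply hc
        funext i
        rw [Subsingleton.elim i 0]
        exact h
      apply hi
      refine ⟨c2 0 / c1 0, ?_⟩
      funext i
      rw [Subsingleton.elim i 0, Pi.smul_apply, smul_eq_mul, div_mul_cancel₀ _ h0]
    | k + 2, c1, c2, hc, hi => exact ⟨k, rfl⟩
  obtain ⟨k, rfl⟩ := hK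
  have htr : ∀ p : ℝ × ℂ, (pen (Vᴴ * A * V) p).PosSemidef → (pen A p).PosSemidef :=
    fun p hp => psd_transfer A hA V hV hL p hp
  have hcomp : ∀ p, pen (Vᴴ * A * V) p = Vᴴ * pen A p * V :=
    Pool.Agent.K3h90.NR.pen_compress A V hV
  have hW : MW (Vᴴ * A * V) = MW A := by
    apply Set.Subset.antisymm (MW_compress_subset A V hV)
    exact Pool.Agent.K3h13.NR.t_MWI (k + 2) (n + 2) _ _ (by omega) htr
  have hpenA := pen0_of_SB A hA
  have hpen : ∀ p, pen (Vᴴ * A * V) p = 0 → p = 0 := by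
    intro p hp
    apply hpenA
    have h1 : (pen A p).PosSemidef := htr p (by rw [hp]; exact Matrix.PosSemidef.zero)
    have h2 : (pen A (-p)).PosSemidef := htr (-p) (by
      have e : pen (Vᴴ * A * V) (-p) = - pen (Vᴴ * A * V) p := by
        unfold pen
        simp only [Prod.fst_neg, Prod.snd_neg, Complex.ofReal_neg, neg_smul,
          Matrix.conjTranspose_neg]
        abel
      rw [e, hp, neg_zero]
      exact Matrix.PosSemidef.zero)
    have e : pen A (-p) = - pen A p := by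
      unfold pen
      simp only [Prod.fst_neg, Prod.snd_neg, Complex.ofReal_neg, neg_smul,
        Matrix.conjTranspose_neg]
      abel
    rw [e] at h2
    have h3 : ∀ x, pen A p *ᵥ x = 0 := by
      intro x
      have e1 := h1.dotProduct_mulVec_nonneg x
      have e2 := h2.dotProduct_mulVec_nonneg x
      rw [Matrix.neg_mulVec, dotProduct_neg] at e2
      exact (h1.dotProduct_mulVec_zero_iff x).mp (le_antisymm (neg_nonneg.mp e2) e1)
    ext i j
    have := congrFun (h3 (Pi.single j 1)) i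
    rw [Matrix.mulVec_single_one] at this
    exact this
  have hSch := Pool.Agent.K3h24.NR.t_SCHUR Pool.Agent.K3h13.NR.t_MWI
  have hVinj : ∀ x, V *ᵥ x = 0 → x = 0 := by
    intro x hx
    have : Vᴴ *ᵥ (V *ᵥ x) = 0 := by rw [hx, Matrix.mulVec_zero]
    rwa [Matrix.mulVec_mulVec, hV, Matrix.one_mulVec] at this
  have hlink : ∀ i j, i ≠ j → Linked A (V *ᵥ β i) (V *ᵥ β j) := by
    intro i j hij
    apply t_LINKP hSch (n + 2) A (by omega) hD _ _ (simple_not_common A hA _ (hs i))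
      (simple_not_common A hA _ (hs j)) (hs i) (hs j)
    rintro ⟨c, hc⟩
    have hc' : β j = c • β i := by
      have h1 := hVinj (β j - c • β i) (by
        rw [Matrix.mulVec_sub, Matrix.mulVec_smul, hc, sub_self])
      exact sub_eq_zero.mp h1
    have h4 := linearIndependent_iff'.mp hβ Finset.univ
      (fun k => if k = j then 1 else if k = i then -c else 0) (by
        rw [Finset.sum_eq_add_of_mem i j (Finset.mem_univ _) (Finset.mem_univ _) hij]
        · simp [hij, hc']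
        · intro k _ hk
          simp [hk.1, hk.2]) j (Finset.mem_univ j)
    simp at h4
  obtain ⟨p, g, hg, hpg⟩ := mainG_of hSch t_COMP (n + 2) k A (by omega) hD V hpen hcomp β hβ hs
    hlink
  have hp2 := not_scalar_rankOne (Vᴴ * A * V) p g hg hpg
  have hpsdB : (pen (Vᴴ * A * V) p).PosSemidef := by
    rw [hpg]
    exact Matrix.posSemidef_vecMulVec_self_star g
  have hpsd := htr p hpsdB
  have hk0 : k = 0 := by
    by_contra hk
    let f : (Fin (k + 2) → ℂ) →ₗ[ℂ] ℂ :=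
      { toFun := fun x => star g ⬝ᵥ x
        map_add' := fun x y => dotProduct_add _ _ _
        map_smul' := fun c x => by rw [dotProduct_smul]; rfl }
    have hf : ∀ x, f x = star g ⬝ᵥ x := fun x => rfl
    have hker : ∀ x, f x = 0 → pen A p *ᵥ (V *ᵥ x) = 0 := by
      intro x hx
      rw [← hpsd.dotProduct_mulVec_zero_iff]
      have h1 : star (V *ᵥ x) ⬝ᵥ (pen A p *ᵥ (V *ᵥ x)) = star x ⬝ᵥ (pen (Vᴴ * A * V) p *ᵥ x) := by
        rw [hcomp, ← Matrix.mulVec_mulVec, ← Matrix.mulVec_mulVec, Matrix.dotProduct_mulVec (star x),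
          Matrix.star_mulVec]
      rw [h1, hpg, Matrix.vecMulVec_mulVec, ← hf, hx]
      simp
    have hfin : Module.finrank ℂ (LinearMap.ker f) ≤ 1 := by
      by_cases hex : ∃ x : LinearMap.ker f, x ≠ 0
      · obtain ⟨x, hx⟩ := hex
        apply finrank_le_one x
        intro y
        have hx' : V *ᵥ (x : Fin (k + 2) → ℂ) ≠ 0 := by
          intro h
          exact hx (Subtype.ext (hVinj _ h))
        obtain ⟨c, hc⟩ := hA p hp2 hpsd (V *ᵥ x) (V *ᵥ y) (hker _ x.2) (hker _ y.2) hx'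
        refine ⟨c, ?_⟩
        apply Subtype.ext
        have h1 := hVinj ((y : Fin (k + 2) → ℂ) - c • (x : Fin (k + 2) → ℂ)) (by
          rw [Matrix.mulVec_sub, Matrix.mulVec_smul, hc, sub_self])
        exact (sub_eq_zero.mp h1).symm
      · push Not at hex
        apply finrank_le_one (0 : LinearMap.ker f)
        intro y
        exact ⟨0, by rw [hex y, smul_zero]⟩
    have hrk := LinearMap.finrank_range_add_finrank_ker f
    have hr1 : Module.finrank ℂ (LinearMap.range f) ≤ 1 := by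
      have := Submodule.finrank_le (LinearMap.range f)
      rwa [Module.finrank_self] at this
    rw [Module.finrank_fin_fun] at hrk
    omega
  subst hk0
  -- the reducing subspace
  have hinv : ∀ w : ℂ, w ≠ 0 → ∀ x, ∃ y, (w • A + (w • A)ᴴ) *ᵥ (V *ᵥ x) = V *ᵥ y := by
    intro w hw x
    obtain ⟨a, b, c1, c2, e1, e2, hc, hi⟩ := hpair w hw
    obtain ⟨s, t, hst⟩ := span_two c1 c2 hc hi x
    refine ⟨s • ((-(a : ℂ)) • c1) + t • ((b : ℂ) • c2), ?_⟩
    rw [hst]
    simp only [Matrix.mulVec_add, Matrix.mulVec_smul, e1, e2]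
  have hinvA : ∀ x, ∃ y, A *ᵥ (V *ᵥ x) = V *ᵥ y := by
    intro x
    obtain ⟨y1, hy1⟩ := hinv 1 one_ne_zero x
    obtain ⟨y2, hy2⟩ := hinv Complex.I Complex.I_ne_zero x
    refine ⟨(1 / 2 : ℂ) • (y1 - Complex.I • y2), ?_⟩
    rw [Matrix.mulVec_smul, Matrix.mulVec_sub, Matrix.mulVec_smul, ← hy1, ← hy2, one_smul,
      Matrix.conjTranspose_smul, Matrix.add_mulVec, Matrix.add_mulVec, Matrix.smul_mulVec,
      Matrix.smul_mulVec]
    have hI : star Complex.I = -Complex.I := by simp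
    rw [hI, neg_smul, smul_add, smul_neg, smul_smul, smul_smul, Complex.I_mul_I]
    module
  have hinvAH : ∀ x, ∃ y, Aᴴ *ᵥ (V *ᵥ x) = V *ᵥ y := by
    intro x
    obtain ⟨y1, hy1⟩ := hinv 1 one_ne_zero x
    obtain ⟨y2, hy2⟩ := hinvA x
    refine ⟨y1 - y2, ?_⟩
    rw [Matrix.mulVec_sub, ← hy1, ← hy2, one_smul, Matrix.add_mulVec]
    abel
  have hfinal : ∀ M : Matrix (Fin (n + 2)) (Fin (n + 2)) ℂ,
      (∀ x, ∃ y, M *ᵥ (V *ᵥ x) = V *ᵥ y) → M * V = V * (Vᴴ * M * V) := by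
    intro M hM
    have h1 : ∀ x, (M * V) *ᵥ x = (V * (Vᴴ * M * V)) *ᵥ x := by
      intro x
      obtain ⟨y, hy⟩ := hM x
      rw [← Matrix.mulVec_mulVec, ← Matrix.mulVec_mulVec, ← Matrix.mulVec_mulVec,
        ← Matrix.mulVec_mulVec, hy, Matrix.mulVec_mulVec y Vᴴ V, hV, Matrix.one_mulVec]
    ext i j
    have := congrFun (h1 (Pi.single j 1)) i
    rw [Matrix.mulVec_single_one, Matrix.mulVec_single_one] at this
    exact this
  exact ⟨V, hV, hfinal A hinvA, hfinal Aᴴ hinvAH, hW⟩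

end Pool.Agent.K3h28.NR
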