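import Pool.Agent.K3h28.NR.SimC

/-!
# Matrices whose top eigenvalue is simple in a dense set of directions (helper28)
-/

set_option autoImplicit false

open Matrix Filter Topology
open scoped ComplexOrder

namespace Pool.Agent.K3h28.NR

open Pool.Agent.Helper774

/-- the directions in which the smallest eigenvalue is simple -/
def SimpleDir {n : ℕ} (A : Matrix (Fin n) (Fin n) ℂ) (w : ℂ) : Prop :=
  ∀ a : ℝ, (pen A (a, w)).PosSemidef → ∀ x y : Fin n → ℂ,
    pen A (a, w) *ᵥ x = 0 → pen A (a, w) *ᵥ y = 0 → x ≠ 0 → ∃ c : ℂ, y = c • x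

theorem quad_bound {n : ℕ} (M : Matrix (Fin n) (Fin n) ℂ) (y : Fin n → ℂ) :
    ‖star y ⬝ᵥ (M *ᵥ y)‖ ≤ (∑ i, ∑ j, ‖M i j‖) * (star y ⬝ᵥ y).re := by
  rw [dot_self_eq, Complex.ofReal_re]
  have hS : ∀ i, ‖y i‖ ^ 2 ≤ ∑ k, ‖y k‖ ^ 2 := fun i =>
    Finset.single_le_sum (f := fun k => ‖y k‖ ^ 2) (fun k _ => by positivity) (Finset.mem_univ i)
  generalize (∑ k, ‖y k‖ ^ 2) = S at hS ⊢
  simp only [dotProduct, Matrix.mulVec, Finset.mul_sum, Finset.sum_mul]
  refine (norm_sum_le _ _).trans (Finset.sum_le_sum fun i _ => ?_)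
  refine (norm_sum_le _ _).trans (Finset.sum_le_sum fun j _ => ?_)
  rw [norm_mul, norm_mul, Pi.star_apply, norm_star]
  have h1 : ‖y i‖ * ‖y j‖ ≤ S := by
    nlinarith [hS i, hS j, sq_nonneg (‖y i‖ - ‖y j‖)]
  calc ‖y i‖ * (‖M i j‖ * ‖y j‖) = ‖M i j‖ * (‖y i‖ * ‖y j‖) := by ring
    _ ≤ ‖M i j‖ * S := mul_le_mul_of_nonneg_left h1 (norm_nonneg _)

theorem pen_re {n : ℕ} (B : Matrix (Fin n) (Fin n) ℂ) (p : ℝ × ℂ) (c : Fin n → ℂ) :
    (star c ⬝ᵥ (pen B p *ᵥ c)).re
      = p.1 * (star c ⬝ᵥ c).re + 2 * (p.2 * (star c ⬝ᵥ (B *ᵥ c))).re := by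
  rw [pen_form, ← dot_mul_conj B c c, ← map_mul, Complex.add_re, Complex.add_re,
    Complex.re_ofReal_mul, Complex.conj_re]
  ring

theorem psd_dense {m K : ℕ} (A : Matrix (Fin m) (Fin m) ℂ) (hd : Dense {w : ℂ | SimpleDir A w})
    (V : Matrix (Fin m) (Fin K) ℂ) (hV : Vᴴ * V = 1)
    (hL : ∀ y, Simple A y → ∃ c, y = V *ᵥ c) (p : ℝ × ℂ)
    (hp : (pen (Vᴴ * A * V) p).PosSemidef) : (pen A p).PosSemidef := by
  have hcl : IsClosed {p : ℝ × ℂ | (pen A p).PosSemidef} :=
    Pool.Agent.K3h23.NR.isClosed_psd (A := A)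
  have hmem : p ∈ closure {p : ℝ × ℂ | (pen A p).PosSemidef} := by
    rw [Metric.mem_closure_iff]
    intro ε hε
    obtain ⟨B, hB⟩ : ∃ B, B = Vᴴ * A * V := ⟨_, rfl⟩
    rw [← hB] at hp
    obtain ⟨cB, hcB⟩ : ∃ cB : ℝ, cB = ∑ i, ∑ j, ‖B i j‖ := ⟨_, rfl⟩
    have hcB0 : 0 ≤ cB := by
      rw [hcB]
      exact Finset.sum_nonneg fun i _ => Finset.sum_nonneg fun j _ => norm_nonneg _
    have hr : 0 < min (ε / 2) (ε / 2 / (2 * cB + 1)) := by positivity
    obtain ⟨w', hw', hdist⟩ := hd.exists_dist_lt p.2 hr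
    refine ⟨(p.1 + ε / 2, w'), ?_, ?_⟩
    · show (pen A (p.1 + ε / 2, w')).PosSemidef
      by_contra hcon
      obtain ⟨μ, y, hμ, hy0, hMy, hpsd⟩ := Pool.Agent.K3h90.NR.exists_neg _
        (Pool.Agent.K3h90.NR.pen_herm A _) hcon
      have hsh := Pool.Agent.K3h90.NR.pen_shift A ((p.1 + ε / 2 : ℝ), w') μ
      simp only at hsh
      rw [← hsh] at hpsd
      have hyk : pen A (p.1 + ε / 2 - μ, w') *ᵥ y = 0 := by
        rw [hsh, sub_mulVec, smul_mulVec, one_mulVec, hMy, sub_self]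
      have hys : Simple A y :=
        ⟨hy0, (p.1 + ε / 2 - μ, w'), hpsd, hyk, fun ξ hξ => hw' _ hpsd y ξ hyk hξ hy0⟩
      obtain ⟨c, hc⟩ := hL y hys
      -- the value of the form
      have e1 : star c ⬝ᵥ (pen B (p.1 + ε / 2, w') *ᵥ c) = (μ : ℂ) * (star y ⬝ᵥ y) := by
        rw [hB, Pool.Agent.K3h90.NR.pen_compress A V hV, ← mulVec_mulVec, ← mulVec_mulVec, ← hc,
          hMy, dotProduct_mulVec, vecMul_conjTranspose, star_star, ← hc, dotProduct_smul,
          smul_eq_mul]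
      have e2 : (star c ⬝ᵥ (pen B (p.1 + ε / 2, w') *ᵥ c)).re < 0 := by
        rw [e1, Complex.re_ofReal_mul]
        have h3 : 0 < star y ⬝ᵥ y := dotProduct_star_self_pos_iff.2 hy0
        exact mul_neg_of_neg_of_pos hμ (by simpa using (Complex.lt_def.mp h3).1)
      have e3 : 0 ≤ (star c ⬝ᵥ (pen B p *ᵥ c)).re := by
        have := (Complex.le_def.mp (hp.dotProduct_mulVec_nonneg c)).1
        simpa using this
      rw [pen_re] at e2 e3
      simp only at e2
      have e4 : |((w' - p.2) * (star c ⬝ᵥ (B *ᵥ c))).re| ≤ ‖w' - p.2‖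
          * (cB * (star c ⬝ᵥ c).re) := by
        refine (Complex.abs_re_le_norm _).trans ?_
        rw [norm_mul]
        exact mul_le_mul_of_nonneg_left (by rw [hcB]; exact quad_bound B c) (norm_nonneg _)
      have e5 : ((w' - p.2) * (star c ⬝ᵥ (B *ᵥ c))).re = (w' * (star c ⬝ᵥ (B *ᵥ c))).re
          - (p.2 * (star c ⬝ᵥ (B *ᵥ c))).re := by
        rw [sub_mul, Complex.sub_re]
      have e6 : ‖w' - p.2‖ ≤ ε / 2 / (2 * cB + 1) := by
        rw [← dist_eq_norm, dist_comm]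
        exact (hdist.trans_le (min_le_right _ _)).le
      have e7 : ‖w' - p.2‖ * (2 * cB + 1) ≤ ε / 2 := by
        rwa [le_div_iff₀ (by positivity)] at e6
      have hSn : 0 ≤ (star c ⬝ᵥ c).re := dot_self_re_nonneg c
      have e8 := (abs_le.mp e4).1
      rw [e5] at e8
      have e9 : ‖w' - p.2‖ * (2 * cB + 1) * (star c ⬝ᵥ c).re ≤ ε / 2 * (star c ⬝ᵥ c).re :=
        mul_le_mul_of_nonneg_right e7 hSn
      have e10 : 0 ≤ ‖w' - p.2‖ * (star c ⬝ᵥ c).re := mul_nonneg (norm_nonneg _) hSn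
      nlinarith
    · rw [Prod.dist_eq]
      apply max_lt
      · rw [Real.dist_eq]
        have : p.1 - (p.1 + ε / 2) = -(ε / 2) := by ring
        rw [show (p.1 - ((p.1 + ε / 2, w') : ℝ × ℂ).1) = -(ε / 2) from this, abs_neg,
          abs_of_pos (by positivity)]
        linarith
      · have := hdist.trans_le (min_le_left _ _)
        show dist p.2 w' < ε
        linarith
  rw [hcl.closure_eq] at hmem
  exact hmem

/-- the rank-one criterion is necessary when the directions with a simple eigenvalue are dense -/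
theorem dense_main (n : ℕ) (A : Matrix (Fin (n + 2)) (Fin (n + 2)) ℂ) (hD : FinPropD A)
    (hNC : NoCommon A) (hd : Dense {w : ℂ | SimpleDir A w}) :
    ∃ (k : ℕ) (V : Matrix (Fin (n + 2)) (Fin (k + 2)) ℂ), Vᴴ * V = 1 ∧
      MW (Vᴴ * A * V) = MW A ∧ ∃ (p : ℝ × ℂ) (g : Fin (k + 2) → ℂ), g ≠ 0 ∧
        pen (Vᴴ * A * V) p = vecMulVec g (star g) := by
  obtain ⟨K, V, β, hV, hβ, hs, hL⟩ := frame A
  have htr : ∀ p : ℝ × ℂ, (pen (Vᴴ * A * V) p).PosSemidef → (pen A p).PosSemidef :=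
    fun p hp => psd_dense A hd V hV hL p hp
  have hcomp : ∀ p, pen (Vᴴ * A * V) p = Vᴴ * pen A p * V :=
    Pool.Agent.K3h90.NR.pen_compress A V hV
  have hpenA := Pool.Agent.K3h60.NR.t_PEN0 (n + 2) A (by omega) hNC
  have hpen : ∀ p, pen (Vᴴ * A * V) p = 0 → p = 0 := by
    intro p hp
    apply hpenA
    have h1 : (pen A p).PosSemidef := htr p (by rw [hp]; exact Matrix.PosSemidef.zero)
    have h2 : (pen A (-p)).PosSemidef := htr (-p) (by
      have e : pen (Vᴴ * A * V) (-p) = - pen (Vᴴ * A * V) p := by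
        unfold pen
        simp only [Prod.fst_neg, Prod.snd_neg, Complex.ofReal_neg, neg_smul,
          Matrix.conjTranspose_neg]
        abel
      rw [e, hp, neg_zero]
      exact Matrix.PosSemidef.zero)
    have e : pen A (-p) = - pen A p := by
      unfold pen
      simp only [Prod.fst_neg, Prod.snd_neg, Complex.ofReal_neg, neg_smul,
        Matrix.conjTranspose_neg]
      abel
    rw [e] at h2
    have h3 : ∀ x, pen A p *ᵥ x = 0 := by
      intro x
      have e1 := h1.dotProduct_mulVec_nonneg x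
      have e2 := h2.dotProduct_mulVec_nonneg x
      rw [Matrix.neg_mulVec, dotProduct_neg] at e2
      exact (h1.dotProduct_mulVec_zero_iff x).mp (le_antisymm (neg_nonneg.mp e2) e1)
    ext i j
    have := congrFun (h3 (Pi.single j 1)) i
    rw [Matrix.mulVec_single_one] at this
    exact this
  have hK : ∃ k, K = k + 2 := by
    match K, V, hpen with
    | 0, V, hpen =>
      exfalso
      have h := hpen ((1 : ℝ), (0 : ℂ)) (by ext i; exact i.elim0)
      have := congrArg Prod.fst h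
      exact one_ne_zero this
    | 1, V, hpen =>
      exfalso
      have hb : ∃ r : ℝ, ∀ i j, (Vᴴ * A * V + (Vᴴ * A * V)ᴴ) i j = (r : ℂ) := by
        refine ⟨2 * ((Vᴴ * A * V) 0 0).re, fun i j => ?_⟩
        rw [Subsingleton.elim i 0, Subsingleton.elim j 0, Matrix.add_apply,
          Matrix.conjTranspose_apply, RCLike.star_def, Complex.add_conj]
      obtain ⟨r, hr⟩ := hb
      have h := hpen ((-r : ℝ), (1 : ℂ)) (by
        unfold pen
        simp only [one_smul]
        rw [add_assoc]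
        ext i j
        rw [Matrix.add_apply, hr, Matrix.smul_apply, Subsingleton.elim i 0,
          Subsingleton.elim j 0, Matrix.one_apply_eq, Matrix.zero_apply]
        simp)
      have := congrArg Prod.snd h
      exact one_ne_zero this
    | k + 2, V, hpen => exact ⟨k, rfl⟩
  obtain ⟨k, rfl⟩ := hK
  have hW : MW (Vᴴ * A * V) = MW A := by
    apply Set.Subset.antisymm (MW_compress_subset A V hV)
    exact Pool.Agent.K3h13.NR.t_MWI (k + 2) (n + 2) _ _ (by omega) htr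
  have hSch := Pool.Agent.K3h24.NR.t_SCHUR Pool.Agent.K3h13.NR.t_MWI
  have hVinj : ∀ x, V *ᵥ x = 0 → x = 0 := by
    intro x hx
    have : Vᴴ *ᵥ (V *ᵥ x) = 0 := by rw [hx, Matrix.mulVec_zero]
    rwa [Matrix.mulVec_mulVec, hV, Matrix.one_mulVec] at this
  have hlink : ∀ i j, i ≠ j → Linked A (V *ᵥ β i) (V *ᵥ β j) := by
    intro i j hij
    apply Pool.Agent.K3h23.NR.t_LINK hSch Pool.Agent.K3h60.NR.t_PEN0 (n + 2) A (by omega) hD hNC
      _ _ (hs i) (hs j)
    rintro ⟨c, hc⟩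
    have hc' : β j = c • β i := by
      have h1 := hVinj (β j - c • β i) (by
        rw [Matrix.mulVec_sub, Matrix.mulVec_smul, hc, sub_self])
      exact sub_eq_zero.mp h1
    have h4 := linearIndependent_iff'.mp hβ Finset.univ
      (fun k => if k = j then 1 else if k = i then -c else 0) (by
        rw [Finset.sum_eq_add_of_mem i j (Finset.mem_univ _) (Finset.mem_univ _) hij]
        · simp [hij, hc']
        · intro k _ hk
          simp [hk.1, hk.2]) j (Finset.mem_univ j)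
    simp at h4
  obtain ⟨p, g, hg, hpg⟩ := mainG_of hSch t_COMP (n + 2) k A (by omega) hD V hpen hcomp β hβ hs
    hlink
  exact ⟨k, V, hV, hW, p, g, hg, hpg⟩

end Pool.Agent.K3h28.NR
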