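import Pool.Agent.Helper774.PosCases2

/-!
# Numerical range inclusion and dilations, matrices of all sizes (MP_74fcff_an): definitions and
statements of the bricks (helper28)
-/

set_option autoImplicit false

open Matrix
open scoped ComplexOrder InnerProductSpace TensorProduct

namespace Pool.Agent.K3h28.NR

open Pool.Agent.Helper774

universe u

/-- the pencil `a + w A + (w A)ᴴ`, `p = (a, w)` -/
noncomputable def pen {n : ℕ} (A : Matrix (Fin n) (Fin n) ℂ) (p : ℝ × ℂ) :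
    Matrix (Fin n) (Fin n) ℂ := (p.1 : ℂ) • 1 + p.2 • A + (p.2 • A)ᴴ

/-- `η` spans the kernel of a positive semidefinite matrix of the pencil -/
def Simple {n : ℕ} (A : Matrix (Fin n) (Fin n) ℂ) (η : Fin n → ℂ) : Prop :=
  η ≠ 0 ∧ ∃ p : ℝ × ℂ, (pen A p).PosSemidef ∧ pen A p *ᵥ η = 0 ∧
    ∀ ξ : Fin n → ℂ, pen A p *ᵥ ξ = 0 → ∃ c : ℂ, ξ = c • η

/-- one of the numbers `ξ* η`, `ξ* A η`, `ξ* Aᴴ η` is not zero -/
def Linked {n : ℕ} (A : Matrix (Fin n) (Fin n) ℂ) (ξ η : Fin n → ℂ) : Prop :=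
  star ξ ⬝ᵥ η ≠ 0 ∨ star ξ ⬝ᵥ (A *ᵥ η) ≠ 0 ∨ star ξ ⬝ᵥ (Aᴴ *ᵥ η) ≠ 0

/-- `A` and `Aᴴ` have no common eigenvector -/
def NoCommon {n : ℕ} (A : Matrix (Fin n) (Fin n) ℂ) : Prop :=
  ∀ x : Fin n → ℂ, x ≠ 0 → ∀ a b : ℂ, ¬ (A *ᵥ x = a • x ∧ Aᴴ *ᵥ x = b • x)

/-- MWI: positivity of the pencils gives the inclusion of the numerical ranges. -/
def S_MWI : Prop := ∀ (n m : ℕ) (A : Matrix (Fin n) (Fin n) ℂ) (T : Matrix (Fin m) (Fin m) ℂ),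
  0 < n → (∀ p : ℝ × ℂ, (pen A p).PosSemidef → (pen T p).PosSemidef) → MW T ⊆ MW A

/-- PEN0: the matrices of the pencil are linearly independent. -/
def S_PEN0 : Prop := ∀ (n : ℕ) (A : Matrix (Fin n) (Fin n) ℂ), 0 < n → NoCommon A →
  ∀ p : ℝ × ℂ, pen A p = 0 → p = 0

/-- SCHUR: a Schur product of the pencil gives a matrix `T`, and a dilation of `T` gives a
representation of the Schur product. -/
def S_SCHUR : Prop := ∀ (n m : ℕ) (A : Matrix (Fin n) (Fin n) ℂ) (G B : Matrix (Fin m) (Fin m) ℂ),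
  0 < n → FinPropD A → G.PosDef →
  (∀ p : ℝ × ℂ, (pen A p).PosSemidef → ((p.1 : ℂ) • G + p.2 • B + (p.2 • B)ᴴ).PosSemidef) →
  ∃ (N : ℕ) (V : Fin N → Matrix (Fin n) (Fin m) ℂ),
    G = ∑ q, (V q)ᴴ * V q ∧ B = ∑ q, (V q)ᴴ * A * V q

/-- LINK: with property (D) any two independent simple vectors are linked. -/
def S_LINK : Prop := ∀ (n : ℕ) (A : Matrix (Fin n) (Fin n) ℂ), 0 < n → FinPropD A → NoCommon A →
  ∀ ξ η : Fin n → ℂ, Simple A ξ → Simple A η → (¬ ∃ c : ℂ, η = c • ξ) → Linked A ξ η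

/-- SPAN: if no compression to a hyperplane has the same numerical range then the simple vectors
span the space. -/
def S_SPAN : Prop := ∀ (n : ℕ) (A : Matrix (Fin (n + 1)) (Fin (n + 1)) ℂ),
  (∀ V : Matrix (Fin (n + 1)) (Fin n) ℂ, Vᴴ * V = 1 → MW (Vᴴ * A * V) ≠ MW A) →
  ∃ η : Fin (n + 1) → (Fin (n + 1) → ℂ), LinearIndependent ℂ η ∧ ∀ i, Simple A (η i)

/-- COMP: the compactness argument. `z = (1, ..., 1, - n)`. -/
def S_COMP : Prop := ∀ (n : ℕ) (A : Matrix (Fin (n + 2)) (Fin (n + 2)) ℂ),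
  (∀ p : ℝ × ℂ, pen A p = 0 → p = 0) →
  (¬ ∃ (p : ℝ × ℂ) (g : Fin (n + 2) → ℂ), g ≠ 0 ∧ pen A p = vecMulVec g (star g)) →
  ∀ η : Fin (n + 2) → (Fin (n + 2) → ℂ), LinearIndependent ℂ η →
  ∃ (C : Fin (n + 2) → Fin (n + 2) → ℝ) (z : Fin (n + 2) → ℝ),
    (∀ i j, C i j = C j i) ∧ (∀ i, C i i = 1) ∧ (∑ i, ∑ j, C i j * z i * z j < 0) ∧
    (∀ (p : ℝ × ℂ), (pen A p).PosSemidef → ∀ x : Fin (n + 2) → ℂ,
      0 ≤ (∑ i, ∑ j, (C i j : ℂ) * (starRingEnd ℂ (x i) * x j *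
        (star (η i) ⬝ᵥ (pen A p *ᵥ η j)))).re) ∧
    (∀ x : Fin (n + 2) → ℂ, x ≠ 0 →
      0 < (∑ i, ∑ j, (C i j : ℂ) * (starRingEnd ℂ (x i) * x j * (star (η i) ⬝ᵥ η j))).re)

/-- MAIN: property (D) gives an element of rank one. -/
def S_MAIN : Prop := ∀ (n : ℕ) (A : Matrix (Fin (n + 2)) (Fin (n + 2)) ℂ), FinPropD A →
  (∀ p : ℝ × ℂ, pen A p = 0 → p = 0) →
  ∀ η : Fin (n + 2) → (Fin (n + 2) → ℂ), LinearIndependent ℂ η → (∀ i, Simple A (η i)) →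
  (∀ i j, i ≠ j → Linked A (η i) (η j)) →
  ∃ (p : ℝ × ℂ) (g : Fin (n + 2) → ℂ), g ≠ 0 ∧ pen A p = vecMulVec g (star g)

/-- FDP: property (D) for operators gives property (D) for matrices. -/
def S_FDP : Prop := ∀ (n : ℕ) (A : Matrix (Fin n) (Fin n) ℂ),
  (∀ (K : Type u) [NormedAddCommGroup K] [InnerProductSpace ℂ K] [CompleteSpace K]
      (T : K →L[ℂ] K), (∀ x : K, ‖x‖ = 1 → inner ℂ x (T x) ∈ MW A) →
      ∃ (H : Type u) (_ : NormedAddCommGroup H) (_ : InnerProductSpace ℂ H)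
        (_ : CompleteSpace H) (X : K →ₗᵢ[ℂ] H ⊗[ℂ] EuclideanSpace ℂ (Fin n)),
        ∀ x y : K, inner ℂ (X y) (LinearMap.lTensor H (Matrix.toEuclideanLin A) (X x))
          = inner ℂ y (T x)) → FinPropD A

end Pool.Agent.K3h28.NR
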